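import Pool.Agent.helper31.IB.Defs

/-!
# IF: faster exponential and logarithm of one packed number

The numbers are as in `IB` (fields `0..3`).  No recursion and no `Nat.log2` (both are slow in the
kernel).  `exp`: nested Horner `1 + y (1 + y/2 (1 + y/3 (...)))` with `20` terms for `mg y < 2^41`
(so `‖y‖ ≤ 2`), then at most five squarings.  `log`: first guess with error about `1/300`, one
exponential, cubic correction.
-/

namespace Pool.Agent.helper31.IF

open Pool.Agent.helper31.IB (rep4 m128 m512 mz nrm good swap mg log3)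

/-- low `48` bits of the fields `0..3` -/
def mW : Nat := Nat.mul rep4 (Nat.sub (Nat.pow 2 48) 1)

/-- `1 + y a / j`, where `c = 2^40/j` -/
def hs (y c a : Nat) : Nat :=
  Nat.add (Nat.land (Nat.shiftRight (Nat.mul (Nat.mod (Nat.mul a y) m512) c) 80) mW) 1099511627776

/-- `exp y`, `mg y < 2^41` -/
def h20 (y : Nat) : Nat :=
  let a := hs y 54975581389 1099511627776
  let a := hs y 57869033041 a
  let a := hs y 61083979321 a
  let a := hs y 64677154575 a
  let a := hs y 68719476736 a
  let a := hs y 73300775185 a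
  let a := hs y 78536544841 a
  let a := hs y 84577817521 a
  let a := hs y 91625968981 a
  let a := hs y 99955602525 a
  let a := hs y 109951162778 a
  let a := hs y 122167958642 a
  let a := hs y 137438953472 a
  let a := hs y 157073089682 a
  let a := hs y 183251937963 a
  let a := hs y 219902325555 a
  let a := hs y 274877906944 a
  let a := hs y 366503875925 a
  let a := hs y 549755813888 a
  Nat.add (mz a y) 1099511627776

/-- mask for a division by `2^k` -/
def mM (k : Nat) : Nat := Nat.mul rep4 (Nat.sub (Nat.pow 2 (Nat.sub 128 k)) 1)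

/-- error of a square -/
def sqe (z e : Nat) : Nat :=
  Nat.add (Nat.shiftRight (Nat.mul (Nat.add (Nat.mul 2 (Nat.add (mg z) e)) e) e) 40) 3

/-- no squaring -/
def fin (z e : Nat) : Nat × Nat × Bool := (z, e, true)

/-- one squaring, then `f` -/
def dbl (f : Nat → Nat → Nat × Nat × Bool) (z e : Nat) : Nat × Nat × Bool :=
  let y := nrm (mz z z)
  bif good y then f y (sqe z e) else (0, 0, false)

/-- `exp (x / 2^k)` -/
def hk (x k : Nat) : Nat := nrm (h20 (Nat.land (Nat.shiftRight x k) (mM k)))

/-- `exp x`, error bound (in units), validity -/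
def zexp (x : Nat) : Nat × Nat × Bool :=
  let m := mg x
  bif Nat.ble m 2199023255551 then fin (nrm (h20 x)) 60 else
  bif Nat.ble m 4398046511103 then dbl fin (hk x 1) 60 else
  bif Nat.ble m 8796093022207 then dbl (dbl fin) (hk x 2) 60 else
  bif Nat.ble m 17592186044415 then dbl (dbl (dbl fin)) (hk x 3) 60 else
  bif Nat.ble m 35184372088831 then dbl (dbl (dbl (dbl fin))) (hk x 4) 60 else
  bif Nat.ble m 70368744177663 then dbl (dbl (dbl (dbl (dbl fin)))) (hk x 5) 60 else
  (0, 0, false)

/-- `L + log2 r` (`r` below `2^2`), no claim; in the same way the next functions -/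
def lg0 (r L : Nat) : Nat := bif Nat.ble 2 r then Nat.add L 1 else L

def lg1 (r L : Nat) : Nat := bif Nat.ble 4 r then lg0 (Nat.shiftRight r 2) (Nat.add L 2) else lg0 r L

def lg2 (r L : Nat) : Nat := bif Nat.ble 16 r then lg1 (Nat.shiftRight r 4) (Nat.add L 4) else lg1 r L

def lg3 (r L : Nat) : Nat := bif Nat.ble 256 r then lg2 (Nat.shiftRight r 8) (Nat.add L 8) else lg2 r L

def lg4 (r L : Nat) : Nat := bif Nat.ble 65536 r then lg3 (Nat.shiftRight r 16) (Nat.add L 16) else lg3 r L

def lg5 (r L : Nat) : Nat := bif Nat.ble 4294967296 r then lg4 (Nat.shiftRight r 32) (Nat.add L 32) else lg4 r L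

/-- first guess of `log x` for a cancelled number, `2^(-20) ≤ ‖x‖ ≤ 2^12`, no claim: with
`s = 2^80 ‖x‖² = 2^L n`, `log ‖x‖ = (log s)/2 - 40 log 2`, `(log n)/2 ≈ (log √2)/2 + (n - √2)/(n + √2)` -/
def zlog0 (x : Nat) : Nat :=
  let b := Nat.land (Nat.shiftRight x 256) m128
  let d := Nat.shiftRight x 384
  let p := Nat.add (Nat.land x m128) b
  let q := Nat.add (Nat.land (Nat.shiftRight x 128) m128) d
  let s := Nat.add (Nat.mul p p) (Nat.mul q q)
  let L := lg5 (Nat.shiftRight s 40) 40
  let n := Nat.shiftRight (Nat.shiftLeft s 20) L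
  let w := Nat.add n 1482910
  let sw := Nat.ble q p
  let t := bif sw then Nat.div (Nat.shiftLeft q 20) (Nat.add p 1) else
    Nat.div (Nat.shiftLeft p 20) (Nat.add q 1)
  let at0 := Nat.shiftRight (Nat.mul t (Nat.add 823550 (Nat.shiftRight (Nat.mul (Nat.sub 1048576 t)
    (Nat.add 256587 (Nat.shiftRight (Nat.mul 69521 t) 20))) 20))) 20
  let an := bif sw then at0 else Nat.sub 1647099 at0
  let e := Nat.shiftLeft (bif Nat.beq b 0 then an else Nat.sub 3294199 an) 20
  Nat.land (nrm (Nat.add (Nat.add (Nat.add (Nat.mul L 381061692393)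
      (Nat.div (Nat.shiftLeft (Nat.sub n 1482910) 40) w))
      (Nat.shiftLeft (Nat.add 30294404545236 (Nat.div (Nat.shiftLeft (Nat.sub 1482910 n) 40) w)) 256))
    (bif Nat.beq d 0 then Nat.shiftLeft e 128 else Nat.shiftLeft e 384))) m512

/-- `x * exp (-l) - 1` with error bound and validity -/
def logu (x l : Nat) : Nat × Nat × Bool :=
  let e := zexp (swap l)
  (nrm (Nat.add (mz x e.1) (Nat.shiftLeft 1099511627776 256)),
    Nat.add (Nat.shiftRight (Nat.mul (mg x) e.2.1) 40) 3, e.2.2)

/-- `log x`, error bound, validity -/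
def zlog (x : Nat) : Nat × Nat × Bool :=
  let l := zlog0 x
  let u := logu x l
  let m := Nat.add (mg u.1) u.2.1
  bif good l && u.2.2 && good u.1 && Nat.ble m 274877906944 then
    (nrm (Nat.add l (log3 u.1)),
      Nat.add (Nat.add (Nat.mul 2 u.2.1) (Nat.shiftRight (Nat.mul (Nat.mul m m) (Nat.mul m m)) 120))
        16, true)
  else (0, 0, false)

end Pool.Agent.helper31.IF
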