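import Pool.Agent.helper31.IF.Defs
import Pool.Agent.helper31.IB.ZFun

/-!
# IF-1: soundness of the faster exponential and logarithm of one packed number

The specifications have the same shape as `IB.zexp_spec`, `IB.zlog_spec`.
(statements: helper31; proofs: helper11, the private lemmas follow `IB/ZFun.lean`, `IB/Blk.lean`)
-/

namespace Pool.Agent.helper31.IF

open Complex
open Pool.Agent.helper31.IB (One bz mg nrm good mz)
open Pool.Agent.helper31.IB (Clean fd conv cyc swap log3 rep4 m512 mg_eq one_add one_nrm clean_of_one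
  fd_nrm fd_zero fd_of_lt fd_mul lt_of_one fd_add fd_mod_m512 fd_mul_one fd_shr_mask fd_rep4_mul
  fd_land land_zero_right land_mask bz_cyc norm_le_mg mz_spec mg_mz one_mono shrk_spec good_iff
  log3_spec one_swap fd_shl fd_m512)

/-! ### auxiliary facts -/

private theorem sf_good {n y : Nat} (h : One n y) (hg : good y = true) : One (2 ^ 62) y :=
  fun i => ⟨((good_iff y).1 hg i).1, (h i).2⟩

private theorem sf_fd_le {n x : Nat} (hn : n ≤ 2 ^ 125) (h : One n x) (i : Nat) :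
    fd x i ≤ mg x := by
  rw [mg_eq hn h]
  by_cases hi : i < 4
  · interval_cases i <;> omega
  · rw [(h i).2 (by omega)]
    exact Nat.zero_le _

private theorem sf_one_lt {n m x : Nat} (hn : n ≤ 2 ^ 125) (h : One n x) (hm : mg x < m) :
    One m x :=
  fun i => ⟨lt_of_le_of_lt (sf_fd_le hn h i) hm, (h i).2⟩

private theorem sf_fd_add {m n X Y : Nat} (hX : One m X) (hY : One n Y) (h : m + n ≤ 2 ^ 128)
    (i : Nat) : fd (Nat.add X Y) i = fd X i + fd Y i :=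
  fd_add (X := X) (Y := Y) (fun i => by
    have h1 := (hX i).1
    have h2 := (hY i).1
    omega) i

private theorem sf_mg_add {m n X Y : Nat} (hX : One m X) (hY : One n Y) (h : m + n ≤ 2 ^ 125) :
    mg (Nat.add X Y) = mg X + mg Y := by
  have h' : m + n ≤ 2 ^ 128 := le_trans h (by norm_num)
  rw [mg_eq h (one_add hX hY h').1, mg_eq (le_trans (Nat.le_add_right m n) h) hX,
    mg_eq (le_trans (Nat.le_add_left n m) h) hY, sf_fd_add hX hY h', sf_fd_add hX hY h',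
    sf_fd_add hX hY h', sf_fd_add hX hY h']
  ring

private theorem sf_mg_nrm {n X : Nat} (hn : n ≤ 2 ^ 100) (h : One n X) : mg (nrm X) ≤ mg X := by
  have hn' : n ≤ 2 ^ 125 := le_trans hn (by norm_num)
  rw [mg_eq hn' (one_nrm hn h).1, mg_eq hn' h]
  have f0 := fd_nrm hn (clean_of_one h) 0 0 (by norm_num)
  have f1 := fd_nrm hn (clean_of_one h) 0 1 (by norm_num)
  have f2 := fd_nrm hn (clean_of_one h) 0 2 (by norm_num)
  have f3 := fd_nrm hn (clean_of_one h) 0 3 (by norm_num)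
  norm_num at f0 f1 f2 f3
  rw [f0, f1, f2, f3]
  omega

private theorem sf_fd_const {c : Nat} (hc : c < 2 ^ 62) (i : Nat) :
    fd c i = if i = 0 then c else 0 := by
  split_ifs with hi
  · subst hi
    rw [fd_zero]
    exact Nat.mod_eq_of_lt (lt_trans hc (by norm_num))
  · exact fd_of_lt (n := 1) (lt_trans hc (by norm_num)) (by omega)

private theorem sf_const {c : Nat} (hc : c < 2 ^ 62) :
    One (2 ^ 62) c ∧ bz c 0 = (c : ℂ) / 2 ^ 40 ∧ mg c = c := by
  have h : One (2 ^ 62) c := by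
    intro i
    rw [sf_fd_const hc]
    split_ifs with hi
    · exact ⟨hc, fun h => by omega⟩
    · exact ⟨by norm_num, fun _ => rfl⟩
  refine ⟨h, ?_, ?_⟩
  · unfold bz
    simp only [Nat.mul_zero, Nat.zero_add, sf_fd_const hc]
    norm_num
  · rw [mg_eq (by norm_num) h]
    simp [sf_fd_const hc]

private theorem sf_bz (x : Nat) :
    bz x 0 = (IA.Z.mk (fd x 0) (fd x 2) (fd x 1) (fd x 3)).val := rfl

private theorem sf_shr_le (P k : ℕ) : (P : ℝ) / 2 ^ k ≤ ((Nat.shiftRight P k : ℕ) : ℝ) + 1 := by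
  have h0 : Nat.shiftRight P k = P / 2 ^ k := Nat.shiftRight_eq_div_pow P k
  have h1 : P < (P / 2 ^ k + 1) * 2 ^ k := by
    have h2 := Nat.div_add_mod P (2 ^ k)
    have h3 := Nat.mod_lt P (Nat.pos_of_ne_zero (pow_ne_zero k (two_ne_zero : (2 : ℕ) ≠ 0)))
    calc P = 2 ^ k * (P / 2 ^ k) + P % 2 ^ k := h2.symm
      _ < 2 ^ k * (P / 2 ^ k) + 2 ^ k := by omega
      _ = (P / 2 ^ k + 1) * 2 ^ k := by ring
  rw [h0, div_le_iff₀ (by positivity)]
  exact_mod_cast h1.le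

private theorem sf_conv_lt {X c : Nat} (hX : Clean (2 ^ 62) X) (hc : One (2 ^ 62) c) (i : Nat) :
    conv X c i ≤ 4 * (2 ^ 62 - 1) ^ 2 := by
  have key : ∀ a b : Nat, a < 2 ^ 62 → b < 2 ^ 62 → a * b ≤ (2 ^ 62 - 1) ^ 2 := by
    intro a b ha hb
    rw [pow_two]
    exact Nat.mul_le_mul (by omega) (by omega)
  have k0 := key _ _ (hX i).1 (hc 0).1
  have k1 := key _ _ (hX (i - 1)).1 (hc 1).1
  have k2 := key _ _ (hX (i - 2)).1 (hc 2).1
  have k3 := key _ _ (hX (i - 3)).1 (hc 3).1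
  unfold conv
  generalize fd X i * fd c 0 = a0 at *
  generalize fd X (i - 1) * fd c 1 = a1 at *
  generalize fd X (i - 2) * fd c 2 = a2 at *
  generalize fd X (i - 3) * fd c 3 = a3 at *
  generalize (2 ^ 62 - 1) ^ 2 = q at *
  split_ifs <;> omega

private theorem sf_fd_mul {X c : Nat} (hX : Clean (2 ^ 62) X) (hc : One (2 ^ 62) c) (i : Nat) :
    fd (Nat.mul X c) i = conv X c i := by
  have h := fd_mul (X := X) (c := c) (lt_of_one hc) (fun i => by
    have h1 := sf_conv_lt hX hc i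
    norm_num at h1 ⊢
    omega) i
  exact h

private theorem sf_conv_cyc {X c : Nat} (hX : Clean (2 ^ 62) X) (j m : Nat) (hm : m < 4) :
    conv X c (8 * j + m) + conv X c (8 * j + m + 4) = cyc X c j m := by
  have z : ∀ i b : Nat, i % 8 < b → b ≤ 3 → (if b ≤ i then fd X (i - b) * fd c b else 0) = 0 := by
    intro i b h1 h2
    by_cases h : b ≤ i
    · rw [if_pos h, (hX (i - b)).2 (Or.inr (by omega)), Nat.zero_mul]
    · rw [if_neg h]
  have y : ∀ i b : Nat, 4 ≤ i % 8 → b + 4 ≤ i % 8 → (if b ≤ i then fd X (i - b) * fd c b else 0) = 0 := by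
    intro i b h1 h2
    by_cases h : b ≤ i
    · rw [if_pos h, (hX (i - b)).2 (Or.inr (by omega)), Nat.zero_mul]
    · rw [if_neg h]
  have w : ∀ i b k : Nat, i = k + b → (if b ≤ i then fd X (i - b) * fd c b else 0) = fd X k * fd c b := by
    intro i b k h
    rw [if_pos (by omega), h, Nat.add_sub_cancel]
  have v : ∀ i : Nat, 4 ≤ i % 8 → fd X i * fd c 0 = 0 := by
    intro i h
    rw [(hX i).2 (Or.inr h), Nat.zero_mul]
  unfold conv cyc
  rcases (by omega : m = 0 ∨ m = 1 ∨ m = 2 ∨ m = 3) with rfl | rfl | rfl | rfl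
  · rw [z _ 1 (by omega) (by omega), z _ 2 (by omega) (by omega), z _ 3 (by omega) (by omega),
      v (8 * j + 0 + 4) (by omega), w (8 * j + 0 + 4) 1 (8 * j + 3) (by omega),
      w (8 * j + 0 + 4) 2 (8 * j + 2) (by omega), w (8 * j + 0 + 4) 3 (8 * j + 1) (by omega)]
    simp only [Nat.add_zero, Nat.zero_add, Nat.zero_mod, Nat.reduceMod]
    ring
  · rw [w (8 * j + 1) 1 (8 * j) (by omega), z (8 * j + 1) 2 (by omega) (by omega),
      z (8 * j + 1) 3 (by omega) (by omega),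
      v (8 * j + 1 + 4) (by omega), y (8 * j + 1 + 4) 1 (by omega) (by omega),
      w (8 * j + 1 + 4) 2 (8 * j + 3) (by omega), w (8 * j + 1 + 4) 3 (8 * j + 2) (by omega)]
    simp only [Nat.add_zero, Nat.zero_add, Nat.reduceMod, Nat.reduceAdd]
    ring
  · rw [w (8 * j + 2) 1 (8 * j + 1) (by omega), w (8 * j + 2) 2 (8 * j) (by omega),
      z (8 * j + 2) 3 (by omega) (by omega),
      v (8 * j + 2 + 4) (by omega), y (8 * j + 2 + 4) 1 (by omega) (by omega),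
      y (8 * j + 2 + 4) 2 (by omega) (by omega), w (8 * j + 2 + 4) 3 (8 * j + 3) (by omega)]
    simp only [Nat.add_zero, Nat.zero_add, Nat.reduceMod, Nat.reduceAdd]
    ring
  · rw [w (8 * j + 3) 1 (8 * j + 2) (by omega), w (8 * j + 3) 2 (8 * j + 1) (by omega),
      w (8 * j + 3) 3 (8 * j) (by omega),
      v (8 * j + 3 + 4) (by omega), y (8 * j + 3 + 4) 1 (by omega) (by omega),
      y (8 * j + 3 + 4) 2 (by omega) (by omega), y (8 * j + 3 + 4) 3 (by omega) (by omega)]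
    simp only [Nat.add_zero, Nat.reduceMod, Nat.reduceAdd]
    ring

private theorem sf_cyc_le {X c : Nat} (hX : Clean (2 ^ 62) X) (hc : One (2 ^ 62) c) (j m : Nat) :
    cyc X c j m ≤ 4 * (2 ^ 62 - 1) ^ 2 := by
  have key : ∀ a b : Nat, a < 2 ^ 62 → b < 2 ^ 62 → a * b ≤ (2 ^ 62 - 1) ^ 2 := by
    intro a b ha hb
    rw [pow_two]
    exact Nat.mul_le_mul (by omega) (by omega)
  have k0 := key _ _ (hX (8 * j)).1 (hc (m % 4)).1
  have k1 := key _ _ (hX (8 * j + 1)).1 (hc ((m + 3) % 4)).1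
  have k2 := key _ _ (hX (8 * j + 2)).1 (hc ((m + 2) % 4)).1
  have k3 := key _ _ (hX (8 * j + 3)).1 (hc ((m + 1) % 4)).1
  unfold cyc
  generalize fd X (8 * j) * fd c (m % 4) = a0 at *
  generalize fd X (8 * j + 1) * fd c ((m + 3) % 4) = a1 at *
  generalize fd X (8 * j + 2) * fd c ((m + 2) % 4) = a2 at *
  generalize fd X (8 * j + 3) * fd c ((m + 1) % 4) = a3 at *
  generalize (2 ^ 62 - 1) ^ 2 = q at *
  omega

/-! ### one Horner step -/

private theorem sf_fd_mod {a y : Nat} (ha : One (2 ^ 62) a) (hy : One (2 ^ 62) y) (i : Nat) :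
    fd (Nat.mod (Nat.mul a y) m512) i = if i < 4 then cyc a y 0 i else 0 := by
  have hxc := clean_of_one ha
  have hlt : Nat.mul a y < 2 ^ 1024 := by
    have h1 := lt_of_one ha
    have h2 := lt_of_one hy
    have h3 : a * y < 2 ^ 512 * 2 ^ 512 := Nat.mul_lt_mul'' h1 h2
    have h4 : (2 : Nat) ^ 512 * 2 ^ 512 = 2 ^ 1024 := by
      rw [← pow_add]
    rw [h4] at h3
    exact h3
  have hb : ∀ i, fd (Nat.mul a y) i < 2 ^ 127 - 1 := fun i => by
    rw [sf_fd_mul hxc hy]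
    have h1 := sf_conv_lt hxc hy i
    norm_num at h1 ⊢
    omega
  have h1 := fd_mod_m512 hlt hb i
  rw [h1]
  split_ifs with hi
  · rw [sf_fd_mul hxc hy, sf_fd_mul hxc hy]
    have h2 := sf_conv_cyc (c := y) hxc 0 i hi
    rw [Nat.mul_zero, Nat.zero_add] at h2
    exact h2
  · rfl

private theorem sf_cyc_sum {a y : Nat} (ha : One (2 ^ 62) a) (hy : One (2 ^ 62) y) :
    cyc a y 0 0 + cyc a y 0 1 + cyc a y 0 2 + cyc a y 0 3 = mg a * mg y := by
  rw [mg_eq (by norm_num) ha, mg_eq (by norm_num) hy]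
  have h0 : cyc a y 0 0 = fd a 0 * fd y 0 + fd a 1 * fd y 3 + fd a 2 * fd y 2 + fd a 3 * fd y 1 :=
    rfl
  have h1 : cyc a y 0 1 = fd a 0 * fd y 1 + fd a 1 * fd y 0 + fd a 2 * fd y 3 + fd a 3 * fd y 2 :=
    rfl
  have h2 : cyc a y 0 2 = fd a 0 * fd y 2 + fd a 1 * fd y 1 + fd a 2 * fd y 0 + fd a 3 * fd y 3 :=
    rfl
  have h3 : cyc a y 0 3 = fd a 0 * fd y 3 + fd a 1 * fd y 2 + fd a 2 * fd y 1 + fd a 3 * fd y 0 :=
    rfl
  rw [h0, h1, h2, h3]
  ring

private theorem sf_fd_mW (i : Nat) : fd mW i = if i < 4 then 2 ^ (128 - 80) - 1 else 0 := by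
  have h := fd_rep4_mul (c := Nat.sub (Nat.pow 2 48) 1) (by decide) i
  delta mW
  rw [h]
  split_ifs
  · decide
  · exact Eq.refl _

/-- division of a natural number, real bounds -/
private theorem sf_div {x N : Nat} (hN : 0 < N) :
    ((x / N : Nat) : ℝ) ≤ (x : ℝ) / N ∧ (x : ℝ) / N ≤ ((x / N : Nat) : ℝ) + 1 := by
  have hN' : (0 : ℝ) < N := by exact_mod_cast hN
  have h1 := Nat.div_add_mod x N
  have h2 := Nat.mod_lt x hN
  constructor
  · rw [le_div_iff₀ hN']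
    have h3 : x / N * N ≤ x := Nat.div_mul_le_self x N
    exact_mod_cast h3
  · rw [div_le_iff₀ hN']
    have h3 : x ≤ (x / N + 1) * N := by
      have h4 : (x / N + 1) * N = N * (x / N) + N := by ring
      rw [h4]
      omega
    exact_mod_cast h3

/-- rounding of the four fields -/
private theorem sf_round {A B C D : Nat} {a b c d : ℝ} {z : ℂ}
    (hA : (A : ℝ) ≤ a ∧ a ≤ A + 1) (hB : (B : ℝ) ≤ b ∧ b ≤ B + 1)
    (hC : (C : ℝ) ≤ c ∧ c ≤ C + 1) (hD : (D : ℝ) ≤ d ∧ d ≤ D + 1)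
    (hz : z = (((a - b) / 2 ^ 40 : ℝ) : ℂ) + (((c - d) / 2 ^ 40 : ℝ) : ℂ) * I) :
    ‖(((((A : ℝ) - B) / 2 ^ 40 : ℝ) : ℂ) + ((((C : ℝ) - D) / 2 ^ 40 : ℝ) : ℂ) * I) - z‖ ≤
      2 / 2 ^ 40 := by
  have key : ∀ X Y : Nat, ∀ x y : ℝ, ((X : ℝ) ≤ x ∧ x ≤ X + 1) → ((Y : ℝ) ≤ y ∧ y ≤ Y + 1) →
      |((X : ℝ) - Y) / 2 ^ 40 - (x - y) / 2 ^ 40| ≤ 1 / 2 ^ 40 := by
    intro X Y x y hX hY
    have e : ((X : ℝ) - Y) / 2 ^ 40 - (x - y) / 2 ^ 40 = ((X - x) + (y - Y)) / 2 ^ 40 := by ring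
    rw [e, abs_div, abs_of_pos (by positivity : (0 : ℝ) < 2 ^ 40)]
    apply div_le_div_of_nonneg_right _ (by positivity)
    rw [abs_le]
    constructor <;> linarith [hX.1, hX.2, hY.1, hY.2]
  have h1 := key A B a b hA hB
  have h2 := key C D c d hC hD
  rw [hz]
  set u : ℝ := ((A : ℝ) - B) / 2 ^ 40 with hu
  set v : ℝ := ((C : ℝ) - D) / 2 ^ 40 with hv
  set u' : ℝ := (a - b) / 2 ^ 40 with hu'
  set v' : ℝ := (c - d) / 2 ^ 40 with hv'
  have e : ((u : ℂ) + (v : ℂ) * I) - ((u' : ℂ) + (v' : ℂ) * I) =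
      ((u - u' : ℝ) : ℂ) + ((v - v' : ℝ) : ℂ) * I := by
    push_cast
    ring
  rw [e]
  have h3 := norm_add_le (((u - u' : ℝ) : ℂ)) (((v - v' : ℝ) : ℂ) * I)
  rw [norm_mul, norm_I, mul_one, norm_real, norm_real, Real.norm_eq_abs, Real.norm_eq_abs] at h3
  have h4 : (2 : ℝ) / 2 ^ 40 = 1 / 2 ^ 40 + 1 / 2 ^ 40 := by ring
  rw [h4]
  linarith

/-- One Horner step.  The product `mz`-like number `Nat.mod (a * y) m512` has the fields
`cyc a y 0 m` (as in `IB.fd_mz`, before the shift), they are at most `mg a * mg y`; after the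
multiplication with `c < 2^41` they are below `2^125`; the shift by `80` with the mask is
`IB.fd_shr_mask`.  Each field loses less than one unit. -/
theorem hs_spec {y c a : Nat} (hy : One (2 ^ 62) y) (hmy : mg y < 2 ^ 41) (ha : One (2 ^ 62) a)
    (hma : mg a ≤ 2 ^ 43) (hc : c < 2 ^ 41) :
    One (2 ^ 62) (hs y c a) ∧
      (mg (hs y c a) : ℝ) ≤ 2 ^ 40 + (mg y : ℝ) * mg a * c / 2 ^ 80 ∧
      ‖bz (hs y c a) 0 - (1 + bz y 0 * bz a 0 * ((c : ℝ) / 2 ^ 40 : ℝ))‖ ≤ 2 / 2 ^ 40 := by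
  set P := Nat.mod (Nat.mul a y) m512 with hP
  have hfP : ∀ i, fd P i = if i < 4 then cyc a y 0 i else 0 := sf_fd_mod ha hy
  have hsum := sf_cyc_sum ha hy
  have hprod : mg a * mg y < 2 ^ 84 := by
    rcases Nat.eq_zero_or_pos (mg a) with h0 | h0
    · rw [h0, Nat.zero_mul]
      norm_num
    · calc mg a * mg y < mg a * 2 ^ 41 := Nat.mul_lt_mul_of_pos_left hmy h0
        _ ≤ 2 ^ 43 * 2 ^ 41 := Nat.mul_le_mul_right _ hma
        _ = 2 ^ 84 := by norm_num
  have hcle : ∀ i, i < 4 → cyc a y 0 i ≤ mg a * mg y := by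
    intro i hi
    rw [← hsum]
    interval_cases i <;> omega
  have hPle : ∀ i, fd P i * c < 2 ^ 125 := by
    intro i
    have h1 : fd P i ≤ 2 ^ 84 := by
      rw [hfP]
      split_ifs with hi
      · exact le_trans (hcle i hi) hprod.le
      · exact Nat.zero_le _
    calc fd P i * c ≤ 2 ^ 84 * c := Nat.mul_le_mul_right _ h1
      _ < 2 ^ 84 * 2 ^ 41 := Nat.mul_lt_mul_of_pos_left hc (by norm_num)
      _ = 2 ^ 125 := by norm_num
  have hPc : ∀ i, fd (Nat.mul P c) i = fd P i * c :=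
    fd_mul_one (X := P) (c := c) (fun i => lt_trans (hPle i) (by norm_num))
  set Q := Nat.land (Nat.shiftRight (Nat.mul P c) 80) mW with hQ
  have hfQ : ∀ i, fd Q i = if i < 4 then cyc a y 0 i * c / 2 ^ 80 else 0 := by
    intro i
    by_cases hi : i < 4
    · rw [hQ, fd_shr_mask (k := 80) (by norm_num) (by rw [sf_fd_mW, if_pos hi]), hPc, hfP,
        if_pos hi, if_pos hi]
    · rw [hQ, fd_land, sf_fd_mW, if_neg hi, if_neg hi, land_zero_right]
  have hQlt : ∀ i, fd Q i < 2 ^ 45 := by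
    intro i
    rw [hfQ]
    split_ifs with hi
    · rw [Nat.div_lt_iff_lt_mul (by positivity)]
      have h1 := hPle i
      rw [hfP, if_pos hi] at h1
      refine lt_of_lt_of_le h1 (by norm_num)
    · norm_num
  have hQone : One (2 ^ 45) Q := fun i => ⟨hQlt i, fun hi => by rw [hfQ, if_neg (by omega)]⟩
  have hc1 := sf_const (c := 1099511627776) (by norm_num)
  have hadd := one_add hQone hc1.1 (by norm_num)
  have e0 : hs y c a = Nat.add Q 1099511627776 := rfl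
  have hmga := sf_mg_add hQone hc1.1 (by norm_num)
  have q0 : fd Q 0 = cyc a y 0 0 * c / 2 ^ 80 := by rw [hfQ, if_pos (by norm_num)]
  have q1 : fd Q 1 = cyc a y 0 1 * c / 2 ^ 80 := by rw [hfQ, if_pos (by norm_num)]
  have q2 : fd Q 2 = cyc a y 0 2 * c / 2 ^ 80 := by rw [hfQ, if_pos (by norm_num)]
  have q3 : fd Q 3 = cyc a y 0 3 * c / 2 ^ 80 := by rw [hfQ, if_pos (by norm_num)]
  have hmQ : mg Q = fd Q 0 + fd Q 1 + fd Q 2 + fd Q 3 := mg_eq (by norm_num) hQone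
  have d0 := sf_div (x := cyc a y 0 0 * c) (N := 2 ^ 80) (by positivity)
  have d1 := sf_div (x := cyc a y 0 1 * c) (N := 2 ^ 80) (by positivity)
  have d2 := sf_div (x := cyc a y 0 2 * c) (N := 2 ^ 80) (by positivity)
  have d3 := sf_div (x := cyc a y 0 3 * c) (N := 2 ^ 80) (by positivity)
  rw [← q0] at d0
  rw [← q1] at d1
  rw [← q2] at d2
  rw [← q3] at d3
  have hmgle : mg (hs y c a) < 2 ^ 62 := by
    rw [e0, hmga, hc1.2.2, hmQ]
    have := hQlt 0
    have := hQlt 1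
    have := hQlt 2
    have := hQlt 3
    omega
  refine ⟨?_, ?_, ?_⟩
  · rw [e0] at hmgle ⊢
    exact sf_one_lt (n := 2 ^ 45 + 2 ^ 62) (by norm_num) hadd.1 hmgle
  · rw [e0, hmga, hc1.2.2, hmQ]
    have hs1 : ((cyc a y 0 0 * c : Nat) : ℝ) / (2 ^ 80 : Nat) + ((cyc a y 0 1 * c : Nat) : ℝ) /
        (2 ^ 80 : Nat) + ((cyc a y 0 2 * c : Nat) : ℝ) / (2 ^ 80 : Nat) +
        ((cyc a y 0 3 * c : Nat) : ℝ) / (2 ^ 80 : Nat) = (mg y : ℝ) * mg a * c / 2 ^ 80 := by
      have h1 : ((cyc a y 0 0 + cyc a y 0 1 + cyc a y 0 2 + cyc a y 0 3 : Nat) : ℝ) =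
          ((mg a * mg y : Nat) : ℝ) := by rw [hsum]
      push_cast at h1 ⊢
      have h2 : (mg y : ℝ) * mg a * c = ((cyc a y 0 0 : ℝ) + cyc a y 0 1 + cyc a y 0 2 +
          cyc a y 0 3) * c := by
        rw [h1]
        ring
      rw [h2]
      ring
    push_cast
    rw [← hs1]
    have e1 : (2 : ℝ) ^ 40 = 1099511627776 := by norm_num
    rw [e1]
    linarith [d0.1, d1.1, d2.1, d3.1]
  · rw [e0, hadd.2, hc1.2.1]
    have e1 : ((1099511627776 : Nat) : ℂ) / 2 ^ 40 = 1 := by norm_num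
    rw [e1]
    have hcy := bz_cyc a y 0
    have hr := sf_round (z := bz y 0 * bz a 0 * (((c : ℝ) / 2 ^ 40 : ℝ) : ℂ)) d0 d2 d1 d3 (by
      have e : bz y 0 * bz a 0 = ((((cyc a y 0 0 : ℝ) - cyc a y 0 2 : ℝ) : ℂ) +
          (((cyc a y 0 1 : ℝ) - cyc a y 0 3 : ℝ) : ℂ) * I) / 2 ^ 80 := by
        rw [hcy]
        field_simp
      rw [e]
      push_cast
      ring)
    have e2 : bz Q 0 = (((((fd Q 0 : Nat) : ℝ) - (fd Q 2 : Nat)) / 2 ^ 40 : ℝ) : ℂ) +
        (((((fd Q 1 : Nat) : ℝ) - (fd Q 3 : Nat)) / 2 ^ 40 : ℝ) : ℂ) * I := rfl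
    rw [← e2] at hr
    have e3 : bz Q 0 + 1 - (1 + bz y 0 * bz a 0 * (((c : ℝ) / 2 ^ 40 : ℝ) : ℂ)) =
        bz Q 0 - bz y 0 * bz a 0 * (((c : ℝ) / 2 ^ 40 : ℝ) : ℂ) := by ring
    rw [e3]
    exact hr

/-! ### the Horner chain -/

/-- one step with general bounds (in units) -/
private theorem sf_gstep {y c a j : Nat} {T : ℂ} {M t e r q : ℝ} (hy : One (2 ^ 62) y)
    (hmy : mg y < 2 ^ 41) (hc : c < 2 ^ 41) (hj : 0 < j)
    (hcj : |(c : ℝ) / 2 ^ 40 - 1 / j| ≤ r) (hcq : (c : ℝ) / 2 ^ 40 ≤ q)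
    (hM : M ≤ 4) (h : One (2 ^ 62) a ∧ (mg a : ℝ) ≤ M * 2 ^ 40 ∧ ‖T‖ ≤ t ∧ ‖bz a 0 - T‖ ≤ e) :
    One (2 ^ 62) (hs y c a) ∧ (mg (hs y c a) : ℝ) ≤ (1 + 2 * M * q) * 2 ^ 40 ∧
      ‖1 + bz y 0 * T * (1 / j)‖ ≤ 1 + 2 * t / j ∧
      ‖bz (hs y c a) 0 - (1 + bz y 0 * T * (1 / j))‖ ≤ 2 / 2 ^ 40 + 2 * (e * q + t * r) := by
  obtain ⟨ha, hma, hT, he⟩ := h
  have hmyr : (mg y : ℝ) ≤ 2 ^ 41 := by exact_mod_cast hmy.le
  have hmar : mg a ≤ 2 ^ 43 := by
    have h1 : (mg a : ℝ) ≤ 2 ^ 43 := by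
      refine hma.trans ?_
      have : M * 2 ^ 40 ≤ 4 * 2 ^ 40 := mul_le_mul_of_nonneg_right hM (by positivity)
      refine this.trans (by norm_num)
    exact_mod_cast h1
  have h := hs_spec hy hmy ha hmar hc
  have hyn : ‖bz y 0‖ ≤ 2 := by
    refine (norm_le_mg (n := 2 ^ 62) (by norm_num) hy).trans ?_
    rw [div_le_iff₀ (by positivity)]
    refine hmyr.trans (by norm_num)
  have hq0 : 0 ≤ q := le_trans (by positivity) hcq
  have hr0 : 0 ≤ r := le_trans (abs_nonneg _) hcj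
  have he0 : 0 ≤ e := le_trans (norm_nonneg _) he
  have ht0 : 0 ≤ t := le_trans (norm_nonneg _) hT
  have hj' : (0 : ℝ) < j := by exact_mod_cast hj
  refine ⟨h.1, ?_, ?_, ?_⟩
  · refine h.2.1.trans ?_
    have hma0 : (0 : ℝ) ≤ mg a := Nat.cast_nonneg _
    have h1 : (mg y : ℝ) * mg a * c / 2 ^ 80 ≤ 2 ^ 41 * (M * 2 ^ 40) * q / 2 ^ 40 := by
      have e1 : (mg y : ℝ) * mg a * c / 2 ^ 80 = (mg y : ℝ) * mg a * (c / 2 ^ 40) / 2 ^ 40 := by
        ring
      rw [e1]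
      apply div_le_div_of_nonneg_right _ (by positivity)
      have h2 : (mg y : ℝ) * mg a ≤ 2 ^ 41 * (M * 2 ^ 40) :=
        mul_le_mul hmyr hma hma0 (by positivity)
      exact mul_le_mul h2 hcq (by positivity) (le_trans (by positivity) h2)
    have e2 : 2 ^ 40 + 2 ^ 41 * (M * 2 ^ 40) * q / 2 ^ 40 = (1 + 2 * M * q) * 2 ^ 40 := by
      ring
    linarith
  · refine (norm_add_le _ _).trans ?_
    rw [norm_one, norm_mul, norm_mul, norm_div, norm_one, Complex.norm_natCast]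
    have h1 : ‖bz y 0‖ * ‖T‖ * (1 / (j : ℝ)) ≤ 2 * t * (1 / (j : ℝ)) := by
      apply mul_le_mul_of_nonneg_right _ (by positivity)
      exact mul_le_mul hyn hT (norm_nonneg _) (by norm_num)
    have e1 : 2 * t / (j : ℝ) = 2 * t * (1 / (j : ℝ)) := by ring
    rw [e1]
    linarith
  · have e1 : bz (hs y c a) 0 - (1 + bz y 0 * T * (1 / j)) =
        (bz (hs y c a) 0 - (1 + bz y 0 * bz a 0 * ((c : ℝ) / 2 ^ 40 : ℝ))) +
        bz y 0 * ((bz a 0 - T) * ((c : ℝ) / 2 ^ 40 : ℝ) +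
          T * (((c : ℝ) / 2 ^ 40 - 1 / j : ℝ) : ℂ)) := by
      push_cast
      ring
    rw [e1]
    refine (norm_add_le _ _).trans ?_
    apply add_le_add h.2.2
    rw [norm_mul]
    have h1 : ‖(bz a 0 - T) * ((c : ℝ) / 2 ^ 40 : ℝ) + T * (((c : ℝ) / 2 ^ 40 - 1 / j : ℝ) : ℂ)‖ ≤
        e * q + t * r := by
      refine (norm_add_le _ _).trans ?_
      rw [norm_mul, norm_mul, Complex.norm_real, Complex.norm_real, Real.norm_eq_abs,
        Real.norm_eq_abs]
      have h2 : |(c : ℝ) / 2 ^ 40| ≤ q := by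
        rw [abs_of_nonneg (by positivity)]
        exact hcq
      exact add_le_add (mul_le_mul he h2 (abs_nonneg _) he0) (mul_le_mul hT hcj (abs_nonneg _) ht0)
    exact mul_le_mul hyn h1 (norm_nonneg _) (by norm_num)

/-- invariant of the steps `j = 20, ..., 4` -/
private def sf_Inv (a : Nat) (T : ℂ) : Prop :=
  One (2 ^ 62) a ∧ (mg a : ℝ) ≤ 2 * 2 ^ 40 ∧ ‖T‖ ≤ 2 ∧ ‖bz a 0 - T‖ ≤ 8 / 2 ^ 40

private theorem sf_step {y : Nat} (hy : One (2 ^ 62) y) (hmy : mg y < 2 ^ 41) (j c : Nat)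
    (hc : c ≤ 274877906944) (hj : 4 ≤ j) (hcj : |(c : ℝ) / 2 ^ 40 - 1 / j| ≤ 1 / 2 ^ 41)
    {a : Nat} {T : ℂ} (h : sf_Inv a T) : sf_Inv (hs y c a) (1 + bz y 0 * T * (1 / j)) := by
  have hcr : (c : ℝ) / 2 ^ 40 ≤ 1 / 4 := by
    rw [div_le_iff₀ (by positivity)]
    have h1 : (c : ℝ) ≤ 274877906944 := by exact_mod_cast hc
    refine h1.trans (by norm_num)
  have h1 := sf_gstep (q := 1 / 4) hy hmy (lt_of_le_of_lt hc (by norm_num)) (by omega) hcj hcr
    (by norm_num) h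
  refine ⟨h1.1, h1.2.1.trans (by norm_num), h1.2.2.1.trans ?_, h1.2.2.2.trans (by norm_num)⟩
  have hj' : (4 : ℝ) ≤ j := by exact_mod_cast hj
  have h2 : 2 * (2 : ℝ) / j ≤ 1 := by
    rw [div_le_iff₀ (by linarith)]
    linarith
  linarith

private theorem sf_chain {y : Nat} (hy : One (2 ^ 62) y) (hmy : mg y < 2 ^ 41) :
    ∃ (a : Nat) (T : ℂ), sf_Inv a T ∧
      h20 y = Nat.add (mz (hs y 549755813888 (hs y 366503875925 a)) y) 1099511627776 ∧
      (1 + bz y 0 * (1 + bz y 0 * (1 + bz y 0 * T * (1 / ((3 : Nat) : ℂ))) * (1 / ((2 : Nat) : ℂ)))) =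
        ∑ m ∈ Finset.range 21, bz y 0 ^ m / (Nat.factorial m : ℂ) := by
  have h21 : sf_Inv 1099511627776 1 := by
    have hc1 := sf_const (c := 1099511627776) (by norm_num)
    refine ⟨hc1.1, ?_, by rw [norm_one]; norm_num, ?_⟩
    · rw [hc1.2.2]
      norm_num
    · rw [hc1.2.1]
      norm_num
  have h20 := sf_step hy hmy 20 54975581389 (by norm_num) (by norm_num)
    (by rw [abs_le]; constructor <;> norm_num) h21
  have h19 := sf_step hy hmy 19 57869033041 (by norm_num) (by norm_num)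
    (by rw [abs_le]; constructor <;> norm_num) h20
  have h18 := sf_step hy hmy 18 61083979321 (by norm_num) (by norm_num)
    (by rw [abs_le]; constructor <;> norm_num) h19
  have h17 := sf_step hy hmy 17 64677154575 (by norm_num) (by norm_num)
    (by rw [abs_le]; constructor <;> norm_num) h18
  have h16 := sf_step hy hmy 16 68719476736 (by norm_num) (by norm_num)
    (by rw [abs_le]; constructor <;> norm_num) h17
  have h15 := sf_step hy hmy 15 73300775185 (by norm_num) (by norm_num)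
    (by rw [abs_le]; constructor <;> norm_num) h16
  have h14 := sf_step hy hmy 14 78536544841 (by norm_num) (by norm_num)
    (by rw [abs_le]; constructor <;> norm_num) h15
  have h13 := sf_step hy hmy 13 84577817521 (by norm_num) (by norm_num)
    (by rw [abs_le]; constructor <;> norm_num) h14
  have h12 := sf_step hy hmy 12 91625968981 (by norm_num) (by norm_num)
    (by rw [abs_le]; constructor <;> norm_num) h13
  have h11 := sf_step hy hmy 11 99955602525 (by norm_num) (by norm_num)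
    (by rw [abs_le]; constructor <;> norm_num) h12
  have h10 := sf_step hy hmy 10 109951162778 (by norm_num) (by norm_num)
    (by rw [abs_le]; constructor <;> norm_num) h11
  have h9 := sf_step hy hmy 9 122167958642 (by norm_num) (by norm_num)
    (by rw [abs_le]; constructor <;> norm_num) h10
  have h8 := sf_step hy hmy 8 137438953472 (by norm_num) (by norm_num)
    (by rw [abs_le]; constructor <;> norm_num) h9
  have h7 := sf_step hy hmy 7 157073089682 (by norm_num) (by norm_num)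
    (by rw [abs_le]; constructor <;> norm_num) h8
  have h6 := sf_step hy hmy 6 183251937963 (by norm_num) (by norm_num)
    (by rw [abs_le]; constructor <;> norm_num) h7
  have h5 := sf_step hy hmy 5 219902325555 (by norm_num) (by norm_num)
    (by rw [abs_le]; constructor <;> norm_num) h6
  have h4 := sf_step hy hmy 4 274877906944 (by norm_num) (by norm_num)
    (by rw [abs_le]; constructor <;> norm_num) h5
  refine ⟨_, _, h4, rfl, ?_⟩
  generalize bz y 0 = x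
  simp only [Finset.sum_range_succ, Finset.sum_range_zero, Nat.factorial]
  push_cast
  ring

/-- Invariants of the steps `j = 20, ..., 2`: `mg a ≤ 7/2 * 2^40`, and the distance to
`T_j = Σ_{i ≤ 20 - j + 1} y^i (j-1)!/(j-1+i)!` is at most `20` units (recursion
`e_j ≤ (2/j) e_{j+1} + 11/2`, `|c_j - 2^40/j| ≤ 1/2`); the last step is `mz a y + 1`.
Tail: `Complex.exp_bound'` with `n = 21`. -/
theorem h20_spec {y : Nat} (hy : One (2 ^ 62) y) (hmy : mg y < 2 ^ 41) :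
    One (2 ^ 62) (nrm (h20 y)) ∧
      ‖bz (nrm (h20 y)) 0 - Complex.exp (bz y 0)‖ ≤ 45 / 2 ^ 40 := by
  obtain ⟨a, T, hinv, he, hT⟩ := sf_chain hy hmy
  have h3 := sf_gstep (j := 3) (c := 366503875925) (q := 1 / 3) (r := 1 / 2 ^ 41) hy hmy
    (by norm_num) (by norm_num) (by rw [abs_le]; constructor <;> norm_num) (by norm_num)
    (by norm_num) hinv
  have h3' : One (2 ^ 62) (hs y 366503875925 a) ∧
      (mg (hs y 366503875925 a) : ℝ) ≤ 7 / 3 * 2 ^ 40 ∧
      ‖1 + bz y 0 * T * (1 / ((3 : Nat) : ℂ))‖ ≤ 7 / 3 ∧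
      ‖bz (hs y 366503875925 a) 0 - (1 + bz y 0 * T * (1 / ((3 : Nat) : ℂ)))‖ ≤
        (28 / 3) / 2 ^ 40 := by
    refine ⟨h3.1, h3.2.1.trans (by norm_num), h3.2.2.1.trans (by norm_num),
      h3.2.2.2.trans (by norm_num)⟩
  have h2 := sf_gstep (j := 2) (c := 549755813888) (q := 1 / 2) (r := 1 / 2 ^ 41) hy hmy
    (by norm_num) (by norm_num) (by rw [abs_le]; constructor <;> norm_num) (by norm_num)
    (by norm_num) h3'
  rw [he]
  set b := hs y 549755813888 (hs y 366503875925 a) with hb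
  set U := 1 + bz y 0 * (1 + bz y 0 * T * (1 / ((3 : Nat) : ℂ))) * (1 / ((2 : Nat) : ℂ)) with hU
  have hmb : (mg b : ℝ) ≤ 10 / 3 * 2 ^ 40 := h2.2.1.trans (by norm_num)
  have heb : ‖bz b 0 - U‖ ≤ (41 / 3) / 2 ^ 40 := h2.2.2.2.trans (by norm_num)
  have hz := mz_spec h2.1 hy
  have hz2 := mg_mz h2.1 hy
  have hc1 := sf_const (c := 1099511627776) (by norm_num)
  have hadd := one_add hz.1 hc1.1 (by norm_num)
  have hmga := sf_mg_add hz.1 hc1.1 (by norm_num)
  have hmyr : (mg y : ℝ) ≤ 2 ^ 41 := by exact_mod_cast hmy.le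
  have hmz : mg (mz b y) ≤ 2 ^ 43 := by
    have h5 : (mg (mz b y) : ℝ) * 2 ^ 40 ≤ (mg b : ℝ) * mg y := by exact_mod_cast hz2
    have h6 : (mg b : ℝ) * mg y ≤ (10 / 3 * 2 ^ 40) * 2 ^ 41 :=
      mul_le_mul hmb hmyr (Nat.cast_nonneg _) (by positivity)
    have h7 : (mg (mz b y) : ℝ) ≤ 2 ^ 43 := by
      have h8 : (mg (mz b y) : ℝ) * 2 ^ 40 ≤ 2 ^ 43 * 2 ^ 40 :=
        h5.trans (h6.trans (by norm_num))
      exact le_of_mul_le_mul_right h8 (by positivity)
    exact_mod_cast h7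
  have hmglt : mg (Nat.add (mz b y) 1099511627776) < 2 ^ 62 := by
    rw [hmga, hc1.2.2]
    omega
  have hone : One (2 ^ 62) (Nat.add (mz b y) 1099511627776) :=
    sf_one_lt (n := 2 ^ 86 + 2 ^ 62) (by norm_num) hadd.1 hmglt
  have hnr := one_nrm (n := 2 ^ 62) (by norm_num) hone
  refine ⟨hnr.1, ?_⟩
  rw [hnr.2, hadd.2, hc1.2.1]
  have e1 : ((1099511627776 : Nat) : ℂ) / 2 ^ 40 = 1 := by norm_num
  rw [e1]
  have hyn : ‖bz y 0‖ ≤ 2 := by
    refine (norm_le_mg (n := 2 ^ 62) (by norm_num) hy).trans ?_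
    rw [div_le_iff₀ (by positivity)]
    refine hmyr.trans (by norm_num)
  have htail := Complex.exp_bound' (x := bz y 0) (n := 21) (by
    rw [div_le_iff₀ (by positivity)]
    refine hyn.trans ?_
    norm_num)
  rw [← hT] at htail
  have h9 : ‖bz y 0‖ ^ 21 / (Nat.factorial 21 : ℝ) * 2 ≤ 1 / 2 ^ 40 := by
    have h10 : ‖bz y 0‖ ^ 21 ≤ (2 : ℝ) ^ 21 := pow_le_pow_left₀ (norm_nonneg _) hyn 21
    have h11 : ‖bz y 0‖ ^ 21 / (Nat.factorial 21 : ℝ) * 2 ≤ 2 ^ 21 / (Nat.factorial 21 : ℝ) * 2 := by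
      apply mul_le_mul_of_nonneg_right _ (by norm_num)
      exact div_le_div_of_nonneg_right h10 (by positivity)
    refine h11.trans ?_
    norm_num [Nat.factorial]
  have e2 : bz (mz b y) 0 + 1 - Complex.exp (bz y 0) =
      (bz (mz b y) 0 - bz b 0 * bz y 0) + (bz b 0 - U) * bz y 0 -
        (Complex.exp (bz y 0) - (1 + bz y 0 * U)) := by ring
  rw [e2]
  refine (norm_sub_le _ _).trans ?_
  have h12 := norm_add_le (bz (mz b y) 0 - bz b 0 * bz y 0) ((bz b 0 - U) * bz y 0)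
  rw [norm_mul] at h12
  have h13 : ‖bz b 0 - U‖ * ‖bz y 0‖ ≤ (41 / 3) / 2 ^ 40 * 2 :=
    mul_le_mul heb hyn (norm_nonneg _) (by norm_num)
  have h14 : (2 : ℝ) / 2 ^ 40 + (41 / 3) / 2 ^ 40 * 2 + 1 / 2 ^ 40 ≤ 45 / 2 ^ 40 := by norm_num
  linarith [hz.2]

/-! ### squarings -/

/-- `k` squarings -/
def SqSpec (k : Nat) (f : Nat → Nat → Nat × Nat × Bool) : Prop :=
  ∀ (z e : Nat) (w : ℂ), One (2 ^ 62) z → ‖bz z 0 - w‖ ≤ (e : ℝ) / 2 ^ 40 →
    (f z e).2.2 = true → One (2 ^ 62) (f z e).1 ∧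
      ‖bz (f z e).1 0 - w ^ (2 ^ k)‖ ≤ ((f z e).2.1 : ℝ) / 2 ^ 40

theorem fin_spec : SqSpec 0 fin := by
  intro z e w hz h _
  refine ⟨hz, ?_⟩
  simpa [fin] using h

theorem dbl_spec {k : Nat} {f : Nat → Nat → Nat × Nat × Bool} (hf : SqSpec k f) :
    SqSpec (k + 1) (dbl f) := by
  intro z e w hz h ht
  have hgood : good (nrm (mz z z)) = true := by
    by_contra hc
    rw [Bool.not_eq_true] at hc
    simp [dbl, hc] at ht
  have es : dbl f z e = f (nrm (mz z z)) (sqe z e) := by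
    simp [dbl, hgood]
  rw [es] at ht ⊢
  have hmz := mz_spec hz hz
  have hnr := one_nrm (n := 2 ^ 86) (by norm_num) hmz.1
  have hy : One (2 ^ 62) (nrm (mz z z)) := sf_good hnr.1 hgood
  have e2 : w ^ (2 ^ (k + 1)) = (w * w) ^ (2 ^ k) := by
    rw [← pow_two, ← pow_mul]
    congr 1
    ring
  rw [e2]
  apply hf _ _ _ hy _ ht
  rw [hnr.2]
  set d := bz z 0 - w with hd
  have e3 : bz (mz z z) 0 - w * w = (bz (mz z z) 0 - bz z 0 * bz z 0) +
      d * (2 * bz z 0 - d) := by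
    rw [hd]
    ring
  rw [e3]
  have h2 := norm_le_mg (n := 2 ^ 62) (by norm_num) hz
  have h3 : ‖2 * bz z 0 - d‖ ≤ 2 * ((mg z : ℝ) / 2 ^ 40) + (e : ℝ) / 2 ^ 40 := by
    refine (norm_sub_le _ _).trans ?_
    rw [norm_mul]
    have : ‖(2 : ℂ)‖ = 2 := by simp
    rw [this]
    linarith
  have h4 : ‖d * (2 * bz z 0 - d)‖ ≤
      (e : ℝ) / 2 ^ 40 * (2 * ((mg z : ℝ) / 2 ^ 40) + (e : ℝ) / 2 ^ 40) := by
    rw [norm_mul]
    exact mul_le_mul h h3 (norm_nonneg _) (by positivity)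
  have hP : (((Nat.mul (Nat.add (Nat.mul 2 (Nat.add (mg z) e)) e) e : ℕ)) : ℝ)
      = (2 * ((mg z : ℝ) + e) + e) * e := by
    simp only [Nat.add_eq, Nat.mul_eq]
    push_cast
    ring
  have h5 := sf_shr_le (Nat.mul (Nat.add (Nat.mul 2 (Nat.add (mg z) e)) e) e) 40
  rw [hP] at h5
  have h6 : ((sqe z e : ℕ) : ℝ) = ((Nat.shiftRight (Nat.mul (Nat.add (Nat.mul 2 (Nat.add (mg z) e)) e) e) 40
      : ℕ) : ℝ) + 3 := by
    rw [sqe, Nat.add_eq]
    push_cast
    ring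
  rw [h6]
  have he0 : (0 : ℝ) ≤ e := Nat.cast_nonneg _
  have h7 : (e : ℝ) / 2 ^ 40 * (2 * ((mg z : ℝ) / 2 ^ 40) + (e : ℝ) / 2 ^ 40)
      ≤ (2 * ((mg z : ℝ) + e) + e) * e / 2 ^ 40 / 2 ^ 40 := by
    have e4 : (e : ℝ) / 2 ^ 40 * (2 * ((mg z : ℝ) / 2 ^ 40) + (e : ℝ) / 2 ^ 40)
      = (2 * (mg z : ℝ) + e) * e / 2 ^ 40 / 2 ^ 40 := by ring
    rw [e4]
    apply div_le_div_of_nonneg_right _ (by positivity)
    apply div_le_div_of_nonneg_right _ (by positivity)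
    nlinarith
  have h8 : (2 * ((mg z : ℝ) + e) + e) * e / 2 ^ 40 / 2 ^ 40
      ≤ (((Nat.shiftRight (Nat.mul (Nat.add (Nat.mul 2 (Nat.add (mg z) e)) e) e) 40 : ℕ) : ℝ) + 1)
        / 2 ^ 40 := div_le_div_of_nonneg_right h5 (by positivity)
  refine (norm_add_le _ _).trans ?_
  have h9 : (((Nat.shiftRight (Nat.mul (Nat.add (Nat.mul 2 (Nat.add (mg z) e)) e) e) 40 : ℕ) : ℝ)
      + 3) / 2 ^ 40 = 2 / 2 ^ 40 +
      (((Nat.shiftRight (Nat.mul (Nat.add (Nat.mul 2 (Nat.add (mg z) e)) e) e) 40 : ℕ) : ℝ) + 1)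
        / 2 ^ 40 := by ring
  rw [h9]
  linarith [hmz.2]

/-! ### the exponential -/

private theorem sf_exp_close (y w : ℂ) (hw : ‖w‖ ≤ 2) (hd : ‖y - w‖ ≤ 2 / 2 ^ 40) :
    ‖Complex.exp y - Complex.exp w‖ ≤ 15 / 2 ^ 40 := by
  have e : Complex.exp y - Complex.exp w
      = Complex.exp w * ((Complex.exp (y - w) - 1 - (y - w)) + (y - w)) := by
    rw [Complex.exp_sub]
    have : Complex.exp w ≠ 0 := Complex.exp_ne_zero w
    field_simp
    ring
  rw [e, norm_mul]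
  have h1 : ‖Complex.exp w‖ ≤ 74 / 10 := by
    rw [Complex.norm_exp]
    have h2 : w.re ≤ 2 := (Complex.re_le_norm w).trans hw
    refine (Real.exp_le_exp.2 h2).trans ?_
    have h3 : Real.exp 2 = Real.exp 1 * Real.exp 1 := by
      rw [← Real.exp_add]
      norm_num
    have h4 := Real.exp_one_lt_d9
    have h5 : 0 < Real.exp 1 := Real.exp_pos _
    rw [h3]
    nlinarith
  have hd1 : ‖y - w‖ ≤ 1 := hd.trans (by norm_num)
  have h6 := Complex.norm_exp_sub_one_sub_id_le hd1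
  have h7 : ‖y - w‖ ^ 2 ≤ (2 / 2 ^ 40 : ℝ) ^ 2 := pow_le_pow_left₀ (norm_nonneg _) hd 2
  have h8 : ‖(Complex.exp (y - w) - 1 - (y - w)) + (y - w)‖ ≤ (2 / 2 ^ 40 : ℝ) ^ 2 + 2 / 2 ^ 40 := by
    refine (norm_add_le _ _).trans ?_
    linarith
  refine (mul_le_mul h1 h8 (norm_nonneg _) (by norm_num)).trans ?_
  norm_num

/-- `‖exp a - exp b‖ ≤ exp 2.01 * ‖a - b‖`, the shift costs at most `√2` units:
`45 + 1.415 * 7.5 ≤ 60` -/
theorem hk_spec {x k : Nat} (hx : One (2 ^ 62) x) (h60 : k ≤ 60) (hm : mg x < 2 ^ (41 + k)) :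
    One (2 ^ 62) (hk x k) ∧
      ‖bz (hk x k) 0 - Complex.exp (bz x 0 / 2 ^ k)‖ ≤ 60 / 2 ^ 40 := by
  set y := Nat.land (Nat.shiftRight x k)
    (Nat.mul rep4 (Nat.sub (Nat.pow 2 (Nat.sub 128 k)) 1)) with hy
  have e0 : hk x k = nrm (h20 y) := rfl
  have hfd : ∀ i, fd y i = fd x i / 2 ^ k := fun i => shrk_spec h60 hx i
  have hyo : One (2 ^ 62) y := by
    intro i
    rw [hfd]
    refine ⟨lt_of_le_of_lt (Nat.div_le_self _ _) (hx i).1, fun hi => ?_⟩
    rw [(hx i).2 hi]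
    exact Nat.zero_div _
  have hmy : mg y < 2 ^ 41 := by
    rw [mg_eq (by norm_num) hyo, hfd, hfd, hfd, hfd]
    have hlt := hm
    rw [mg_eq (by norm_num) hx] at hlt
    have hpos : 0 < 2 ^ k := by positivity
    have d0 := Nat.div_mul_le_self (fd x 0) (2 ^ k)
    have d1 := Nat.div_mul_le_self (fd x 1) (2 ^ k)
    have d2 := Nat.div_mul_le_self (fd x 2) (2 ^ k)
    have d3 := Nat.div_mul_le_self (fd x 3) (2 ^ k)
    have h5 : (fd x 0 / 2 ^ k + fd x 1 / 2 ^ k + fd x 2 / 2 ^ k + fd x 3 / 2 ^ k) * 2 ^ k <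
        2 ^ 41 * 2 ^ k := by
      rw [← pow_add]
      have e4 : (fd x 0 / 2 ^ k + fd x 1 / 2 ^ k + fd x 2 / 2 ^ k + fd x 3 / 2 ^ k) * 2 ^ k =
        fd x 0 / 2 ^ k * 2 ^ k + fd x 1 / 2 ^ k * 2 ^ k + fd x 2 / 2 ^ k * 2 ^ k +
          fd x 3 / 2 ^ k * 2 ^ k := by ring
      rw [e4]
      omega
    exact lt_of_mul_lt_mul_right h5 hpos.le
  have hw : ‖bz x 0 / 2 ^ k‖ ≤ 2 := by
    rw [norm_div, norm_pow]
    have h2 : ‖(2 : ℂ)‖ = 2 := by simp
    rw [h2, div_le_iff₀ (by positivity)]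
    have h3 := norm_le_mg (n := 2 ^ 62) (by norm_num) hx
    have h4 : (mg x : ℝ) ≤ 2 ^ (41 + k) := by exact_mod_cast hm.le
    have h5 : (mg x : ℝ) / 2 ^ 40 ≤ 2 ^ (41 + k) / 2 ^ 40 :=
      div_le_div_of_nonneg_right h4 (by positivity)
    have h6 : (2 : ℝ) ^ (41 + k) / 2 ^ 40 = 2 * 2 ^ k := by
      rw [pow_add]
      ring
    linarith
  have hd : ‖bz y 0 - bz x 0 / 2 ^ k‖ ≤ 2 / 2 ^ 40 := by
    have h3 := IA.Z.val_divn (IA.Z.mk (fd x 0) (fd x 2) (fd x 1) (fd x 3)) (n := 2 ^ k)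
      (by positivity)
    have e3 : bz y 0 = ((IA.Z.mk (fd x 0) (fd x 2) (fd x 1) (fd x 3)).divn (2 ^ k)).val := by
      rw [sf_bz, hfd, hfd, hfd, hfd]
      rfl
    rw [← sf_bz, ← e3] at h3
    push_cast at h3
    exact h3
  have h1 := h20_spec hyo hmy
  have h2 := sf_exp_close (bz y 0) (bz x 0 / 2 ^ k) hw hd
  rw [e0]
  refine ⟨h1.1, ?_⟩
  have e : bz (nrm (h20 y)) 0 - Complex.exp (bz x 0 / 2 ^ k)
      = (bz (nrm (h20 y)) 0 - Complex.exp (bz y 0))
        + (Complex.exp (bz y 0) - Complex.exp (bz x 0 / 2 ^ k)) := by ring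
  rw [e]
  refine (norm_add_le _ _).trans ?_
  have : (45 : ℝ) / 2 ^ 40 + 15 / 2 ^ 40 ≤ 60 / 2 ^ 40 := by norm_num
  linarith [h1.2]

private theorem sf_zexp_k {x : Nat} (hx : One (2 ^ 62) x) {k : Nat} (h60 : k ≤ 60)
    (hm : mg x < 2 ^ (41 + k)) {f : Nat → Nat → Nat × Nat × Bool} (hf : SqSpec k f)
    (h : (f (hk x k) 60).2.2 = true) :
    One (2 ^ 62) (f (hk x k) 60).1 ∧
      ‖bz (f (hk x k) 60).1 0 - Complex.exp (bz x 0)‖ ≤ ((f (hk x k) 60).2.1 : ℝ) / 2 ^ 40 := by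
  have h1 := hk_spec hx h60 hm
  have h2 := hf (hk x k) 60 (Complex.exp (bz x 0 / 2 ^ k)) h1.1 (by
    have e : (((60 : Nat) : ℝ)) = 60 := by norm_num
    rw [e]
    exact h1.2) h
  have e5 : Complex.exp (bz x 0 / 2 ^ k) ^ (2 ^ k) = Complex.exp (bz x 0) := by
    rw [← Complex.exp_nat_mul]
    congr 1
    push_cast
    field_simp
  rw [e5] at h2
  exact h2

private theorem sf_zexp_eq (x : Nat) : zexp x =
    bif Nat.ble (mg x) 2199023255551 then fin (nrm (h20 x)) 60 else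
    bif Nat.ble (mg x) 4398046511103 then dbl fin (hk x 1) 60 else
    bif Nat.ble (mg x) 8796093022207 then dbl (dbl fin) (hk x 2) 60 else
    bif Nat.ble (mg x) 17592186044415 then dbl (dbl (dbl fin)) (hk x 3) 60 else
    bif Nat.ble (mg x) 35184372088831 then dbl (dbl (dbl (dbl fin))) (hk x 4) 60 else
    bif Nat.ble (mg x) 70368744177663 then dbl (dbl (dbl (dbl (dbl fin)))) (hk x 5) 60 else
    (0, 0, false) := rfl

theorem zexp_spec {x : Nat} (hx : One (2 ^ 62) x) (h : (zexp x).2.2 = true) :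
    One (2 ^ 62) (zexp x).1 ∧
      ‖bz (zexp x).1 0 - Complex.exp (bz x 0)‖ ≤ ((zexp x).2.1 : ℝ) / 2 ^ 40 := by
  rw [sf_zexp_eq] at h ⊢
  have s1 := dbl_spec fin_spec
  have s2 := dbl_spec s1
  have s3 := dbl_spec s2
  have s4 := dbl_spec s3
  have s5 := dbl_spec s4
  cases h0 : Nat.ble (mg x) 2199023255551 with
  | true =>
    have hm : mg x < 2 ^ 41 := by
      have := Nat.le_of_ble_eq_true h0
      omega
    have h1 := h20_spec hx hm
    rw [cond_true]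
    refine ⟨h1.1, h1.2.trans ?_⟩
    have e : (((fin (nrm (h20 x)) 60).2.1 : Nat) : ℝ) = 60 := by
      have : (fin (nrm (h20 x)) 60).2.1 = 60 := rfl
      rw [this]
      norm_num
    rw [e]
    norm_num
  | false =>
    rw [h0, cond_false] at h
    rw [cond_false]
    cases h1 : Nat.ble (mg x) 4398046511103 with
    | true =>
      rw [h1, cond_true] at h
      rw [cond_true]
      exact sf_zexp_k hx (by norm_num) (by have := Nat.le_of_ble_eq_true h1; omega) s1 h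
    | false =>
      rw [h1, cond_false] at h
      rw [cond_false]
      cases h2 : Nat.ble (mg x) 8796093022207 with
      | true =>
        rw [h2, cond_true] at h
        rw [cond_true]
        exact sf_zexp_k hx (by norm_num) (by have := Nat.le_of_ble_eq_true h2; omega) s2 h
      | false =>
        rw [h2, cond_false] at h
        rw [cond_false]
        cases h3 : Nat.ble (mg x) 17592186044415 with
        | true =>
          rw [h3, cond_true] at h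
          rw [cond_true]
          exact sf_zexp_k hx (by norm_num) (by have := Nat.le_of_ble_eq_true h3; omega) s3 h
        | false =>
          rw [h3, cond_false] at h
          rw [cond_false]
          cases h4 : Nat.ble (mg x) 35184372088831 with
          | true =>
            rw [h4, cond_true] at h
            rw [cond_true]
            exact sf_zexp_k hx (by norm_num) (by have := Nat.le_of_ble_eq_true h4; omega) s4 h
          | false =>
            rw [h4, cond_false] at h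
            rw [cond_false]
            cases h5 : Nat.ble (mg x) 70368744177663 with
            | true =>
              rw [h5, cond_true] at h
              rw [cond_true]
              exact sf_zexp_k hx (by norm_num) (by have := Nat.le_of_ble_eq_true h5; omega) s5 h
            | false =>
              rw [h5, cond_false] at h
              exact absurd h Bool.false_ne_true

/-! ### logarithm -/

private theorem sf_head {X : Nat} (h : good (Nat.land X m512) = true) :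
    One (2 ^ 62) (Nat.land X m512) := by
  intro i
  refine ⟨((good_iff _).1 h i).1, fun hi => ?_⟩
  rw [fd_land, fd_m512, if_neg (by omega)]
  exact land_zero_right _

private theorem sf_logu1 (x l : Nat) : (logu x l).1 = nrm (Nat.add (mz x (zexp (swap l)).1)
    (Nat.shiftLeft 1099511627776 256)) := by
  rw [logu]

private theorem sf_logu2 (x l : Nat) : (logu x l).2.2 = (zexp (swap l)).2.2 := by
  rw [logu]

private theorem sf_logu3 (x l : Nat) : (logu x l).2.1 =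
    Nat.add (Nat.shiftRight (Nat.mul (mg x) (zexp (swap l)).2.1) 40) 3 := by
  rw [logu]

theorem logu_spec {x l : Nat} (hx : One (2 ^ 62) x) (hl : One (2 ^ 62) l)
    (h : (logu x l).2.2 = true) (hg : good (logu x l).1 = true) :
    One (2 ^ 62) (logu x l).1 ∧
      ‖bz (logu x l).1 0 - (bz x 0 * Complex.exp (-bz l 0) - 1)‖ ≤ ((logu x l).2.1 : ℝ) / 2 ^ 40 := by
  have hs := one_swap (n := 2 ^ 62) (by norm_num) hl
  rw [sf_logu2] at h
  have he := zexp_spec hs.1 h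
  rw [hs.2] at he
  have hfd : ∀ i, fd (Nat.shiftLeft 1099511627776 256) i = if i = 2 then 2 ^ 40 else 0 := by
    intro i
    have h1 : fd (Nat.shiftLeft 1099511627776 256) i =
        if i < 2 then 0 else fd 1099511627776 (i - 2) := fd_shl 1099511627776 2 i
    rw [h1]
    by_cases hi : i < 2
    · rw [if_pos hi, if_neg (by omega)]
    · rw [if_neg hi, sf_fd_const (by norm_num)]
      by_cases h2 : i = 2
      · rw [if_pos (by omega), if_pos h2]
        norm_num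
      · rw [if_neg (by omega), if_neg h2]
  have hc : One (2 ^ 62) (Nat.shiftLeft 1099511627776 256) := by
    intro i
    rw [hfd]
    split_ifs with hi
    · exact ⟨by norm_num, fun h => by omega⟩
    · exact ⟨by norm_num, fun _ => rfl⟩
  have hcz : bz (Nat.shiftLeft 1099511627776 256) 0 = -1 := by
    unfold bz
    simp only [Nat.mul_zero, Nat.zero_add, hfd]
    norm_num
  have hmz := mz_spec hx he.1
  have hadd := one_add hmz.1 hc (by norm_num)
  have hnr := one_nrm (n := 2 ^ 86 + 2 ^ 62) (by norm_num) hadd.1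
  rw [← sf_logu1] at hnr
  refine ⟨sf_good hnr.1 hg, ?_⟩
  rw [hnr.2, hadd.2, hcz, sf_logu3]
  generalize zexp (swap l) = E at *
  have h2 : ((Nat.add (Nat.shiftRight (Nat.mul (mg x) E.2.1) 40) 3 : ℕ) : ℝ) =
      ((Nat.shiftRight (Nat.mul (mg x) E.2.1) 40 : ℕ) : ℝ) + 1 + 2 := by
    rw [Nat.add_eq]
    push_cast
    ring
  rw [h2]
  have h4 := norm_le_mg (n := 2 ^ 62) (by norm_num) hx
  have h5 : bz (mz x E.1) 0 + -1 - (bz x 0 * Complex.exp (-bz l 0) - 1) =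
      (bz (mz x E.1) 0 - bz x 0 * bz E.1 0) +
      bz x 0 * (bz E.1 0 - Complex.exp (-bz l 0)) := by ring
  rw [h5]
  refine (norm_add_le _ _).trans ?_
  rw [norm_mul]
  have h6 : ‖bz x 0‖ * ‖bz E.1 0 - Complex.exp (-bz l 0)‖ ≤
      ((mg x : ℝ) / 2 ^ 40) * ((E.2.1 : ℝ) / 2 ^ 40) :=
    mul_le_mul h4 he.2 (norm_nonneg _) (by positivity)
  have h7 := sf_shr_le (Nat.mul (mg x) E.2.1) 40
  have h8 : ((Nat.mul (mg x) E.2.1 : ℕ) : ℝ) =
      (mg x : ℝ) * E.2.1 := by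
    show ((mg x * E.2.1 : ℕ) : ℝ) = _
    push_cast
    rfl
  rw [h8] at h7
  have h9 : ((mg x : ℝ) / 2 ^ 40) * ((E.2.1 : ℝ) / 2 ^ 40) ≤
      (((Nat.shiftRight (Nat.mul (mg x) E.2.1) 40 : ℕ) : ℝ) + 1) / 2 ^ 40 := by
    have : ((mg x : ℝ) / 2 ^ 40) * ((E.2.1 : ℝ) / 2 ^ 40) =
        ((mg x : ℝ) * E.2.1 / 2 ^ 40) / 2 ^ 40 := by ring
    rw [this]
    gcongr
  rw [add_div _ (2 : ℝ)]
  linarith [hmz.2]

private theorem sf_cubic {U u : ℂ} {e : ℝ} (hU4 : ‖U‖ ≤ 1 / 4) (hu4 : ‖u‖ ≤ 1 / 4)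
    (hUu : ‖U - u‖ ≤ e) :
    ‖(U - U ^ 2 / 2 + U ^ 3 / 3) - (u - u ^ 2 / 2 + u ^ 3 / 3)‖ ≤ 2 * e := by
  have e3 : (U - U ^ 2 / 2 + U ^ 3 / 3) - (u - u ^ 2 / 2 + u ^ 3 / 3) =
      (U - u) * (1 - (U + u) / 2 + (U ^ 2 + U * u + u ^ 2) / 3) := by ring
  rw [e3, norm_mul]
  have h3 : ‖1 - (U + u) / 2 + (U ^ 2 + U * u + u ^ 2) / 3‖ ≤ 2 := by
    have a1 : ‖1 - (U + u) / 2 + (U ^ 2 + U * u + u ^ 2) / 3‖ ≤
        ‖(1 : ℂ)‖ + ‖(U + u) / 2‖ + ‖(U ^ 2 + U * u + u ^ 2) / 3‖ :=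
      (norm_add_le _ _).trans (add_le_add (norm_sub_le _ _) le_rfl)
    have a2 : ‖(U + u) / 2‖ ≤ 1 / 4 := by
      rw [norm_div]
      have := norm_add_le U u
      norm_num
      linarith
    have a3 : ‖(U ^ 2 + U * u + u ^ 2) / 3‖ ≤ 1 / 16 := by
      rw [norm_div]
      have b1 := norm_add_le (U ^ 2 + U * u) (u ^ 2)
      have b2 := norm_add_le (U ^ 2) (U * u)
      rw [norm_pow] at b1 b2
      rw [norm_mul] at b2
      have c0 := norm_nonneg U
      have c1 := norm_nonneg u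
      norm_num
      nlinarith
    rw [norm_one] at a1
    linarith
  have h4 := norm_nonneg (U - u)
  nlinarith

private theorem sf_main {x l1 : Nat} (hx : One (2 ^ 62) x) (ol1 : One (2 ^ 62) l1)
    (ht : (logu x l1).2.2 = true) (hg : good (logu x l1).1 = true)
    (h : Nat.ble (Nat.add (mg (logu x l1).1) (logu x l1).2.1) 274877906944 = true) :
    One (2 ^ 63) (nrm (Nat.add l1 (log3 (logu x l1).1))) ∧
    ∃ L : ℂ, Complex.exp L = bz x 0 ∧
      ‖bz (nrm (Nat.add l1 (log3 (logu x l1).1))) 0 - L‖ ≤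
        ((Nat.add (Nat.add (Nat.mul 2 (logu x l1).2.1) (Nat.shiftRight
          (Nat.mul (Nat.mul (Nat.add (mg (logu x l1).1) (logu x l1).2.1)
            (Nat.add (mg (logu x l1).1) (logu x l1).2.1))
            (Nat.mul (Nat.add (mg (logu x l1).1) (logu x l1).2.1)
            (Nat.add (mg (logu x l1).1) (logu x l1).2.1))) 120)) 16 : ℕ) : ℝ) / 2 ^ 40 := by
  have hlu := logu_spec hx ol1 ht hg
  generalize hu1 : (logu x l1).1 = u1 at *
  generalize he1 : (logu x l1).2.1 = e1 at *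
  have hmle : Nat.add (mg u1) e1 ≤ 274877906944 := Nat.le_of_ble_eq_true h
  generalize hm : Nat.add (mg u1) e1 = m at *
  have hm' : m = mg u1 + e1 := hm.symm
  have hmg38 : mg u1 ≤ 2 ^ 38 := by
    have : (274877906944 : ℕ) = 2 ^ 38 := by norm_num
    omega
  have hl3 := log3_spec hlu.1 hmg38
  have hadd := one_add ol1 hl3.1 (by norm_num)
  have hnr := one_nrm (n := 2 ^ 62 + 2 ^ 62) (by norm_num) hadd.1
  refine ⟨one_mono hnr.1 (by norm_num), ?_⟩
  rw [hnr.2, hadd.2]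
  have hmgn := norm_le_mg (n := 2 ^ 62) (by norm_num) hlu.1
  have hu := hlu.2
  have hmr : (m : ℝ) = (mg u1 : ℝ) + e1 := by rw [hm']; push_cast; rfl
  have t3 := hl3.2
  generalize bz (log3 u1) 0 = w at *
  set U : ℂ := bz x 0 * Complex.exp (-bz l1 0) - 1 with hU
  set u : ℂ := bz u1 0 with hudef
  have hUu : ‖U - u‖ ≤ (e1 : ℝ) / 2 ^ 40 := by rw [norm_sub_rev]; exact hu
  have hUm : ‖U‖ ≤ (m : ℝ) / 2 ^ 40 := by
    have h1 : ‖U‖ ≤ ‖U - u‖ + ‖u‖ := by
      have := norm_add_le (U - u) u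
      rwa [sub_add_cancel] at this
    rw [hmr, add_div]
    linarith
  have hm4 : (m : ℝ) / 2 ^ 40 ≤ 1 / 4 := by
    rw [div_le_iff₀ (by positivity)]
    have : (m : ℝ) ≤ 274877906944 := by exact_mod_cast hmle
    refine this.trans ?_
    norm_num
  have hU4 : ‖U‖ ≤ 1 / 4 := hUm.trans hm4
  have he0 : (0 : ℝ) ≤ (e1 : ℝ) := Nat.cast_nonneg _
  have hu4 : ‖u‖ ≤ 1 / 4 := by
    refine hmgn.trans (le_trans ?_ hm4)
    rw [hmr]
    gcongr
    linarith
  have h1U : 1 + U ≠ 0 := by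
    intro h0
    have h1 : U = -1 := by linear_combination h0
    rw [h1, norm_neg, norm_one] at hU4
    norm_num at hU4
  refine ⟨bz l1 0 + Complex.log (1 + U), ?_, ?_⟩
  · rw [Complex.exp_add, Complex.exp_log h1U, hU]
    have h2 : Complex.exp (bz l1 0) * Complex.exp (-bz l1 0) = 1 := by
      rw [← Complex.exp_add, add_neg_cancel, Complex.exp_zero]
    linear_combination bz x 0 * h2
  · have e2 : bz l1 0 + w - (bz l1 0 + Complex.log (1 + U)) =
        -((Complex.log (1 + U) - (U - U ^ 2 / 2 + U ^ 3 / 3)) +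
        ((U - U ^ 2 / 2 + U ^ 3 / 3) - (u - u ^ 2 / 2 + u ^ 3 / 3))) +
        (w - (u - u ^ 2 / 2 + u ^ 3 / 3)) := by ring
    rw [e2]
    have t1 := IA.log_one_add_bound U hU4
    have t2 := sf_cubic hU4 hu4 hUu
    have t0 : ‖U‖ ^ 4 / 3 ≤ ((Nat.shiftRight (Nat.mul (Nat.mul m m) (Nat.mul m m)) 120 : ℕ) + 1) /
        2 ^ 40 := by
      have s1 := sf_shr_le (Nat.mul (Nat.mul m m) (Nat.mul m m)) 120
      have s2 : ((Nat.mul (Nat.mul m m) (Nat.mul m m) : ℕ) : ℝ) = (m : ℝ) ^ 4 := by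
        simp only [Nat.mul_eq]
        push_cast
        ring
      rw [s2] at s1
      have s3 : ‖U‖ ^ 4 ≤ ((m : ℝ) / 2 ^ 40) ^ 4 :=
        pow_le_pow_left₀ (norm_nonneg _) hUm 4
      have s4 : ((m : ℝ) / 2 ^ 40) ^ 4 = ((m : ℝ) ^ 4 / 2 ^ 120) / 2 ^ 40 := by
        rw [div_pow, div_div, ← pow_mul, ← pow_add]
      rw [s4] at s3
      have s5 : (m : ℝ) ^ 4 / 2 ^ 120 / 2 ^ 40 ≤
          ((Nat.shiftRight (Nat.mul (Nat.mul m m) (Nat.mul m m)) 120 : ℕ) + 1) / 2 ^ 40 := by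
        gcongr
      have s6 : 0 ≤ ‖U‖ ^ 4 := by positivity
      linarith
    have t4 := norm_add_le (-((Complex.log (1 + U) - (U - U ^ 2 / 2 + U ^ 3 / 3)) +
        ((U - U ^ 2 / 2 + U ^ 3 / 3) - (u - u ^ 2 / 2 + u ^ 3 / 3))))
        (w - (u - u ^ 2 / 2 + u ^ 3 / 3))
    have t5 := norm_add_le (Complex.log (1 + U) - (U - U ^ 2 / 2 + U ^ 3 / 3))
        ((U - U ^ 2 / 2 + U ^ 3 / 3) - (u - u ^ 2 / 2 + u ^ 3 / 3))
    rw [norm_neg] at t4
    have t6 : (((Nat.add (Nat.add (Nat.mul 2 e1) (Nat.shiftRight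
        (Nat.mul (Nat.mul m m) (Nat.mul m m)) 120)) 16 : ℕ)) : ℝ) / 2 ^ 40 =
        2 * ((e1 : ℝ) / 2 ^ 40) +
        ((Nat.shiftRight (Nat.mul (Nat.mul m m) (Nat.mul m m)) 120 : ℕ) + 1) / 2 ^ 40 +
        15 / 2 ^ 40 := by
      show ((2 * e1 + Nat.shiftRight (Nat.mul (Nat.mul m m) (Nat.mul m m)) 120 + 16 : ℕ) : ℝ) /
        2 ^ 40 = _
      push_cast
      ring
    rw [t6]
    have t7 : (10 : ℝ) / 2 ^ 40 ≤ 15 / 2 ^ 40 := by gcongr; norm_num
    linarith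


private theorem sf_zlog (x : Nat) : zlog x =
    bif good (zlog0 x) && (logu x (zlog0 x)).2.2 && good (logu x (zlog0 x)).1 &&
      Nat.ble (Nat.add (mg (logu x (zlog0 x)).1) (logu x (zlog0 x)).2.1) 274877906944 then
    (nrm (Nat.add (zlog0 x) (log3 (logu x (zlog0 x)).1)),
      Nat.add (Nat.add (Nat.mul 2 (logu x (zlog0 x)).2.1) (Nat.shiftRight
          (Nat.mul (Nat.mul (Nat.add (mg (logu x (zlog0 x)).1) (logu x (zlog0 x)).2.1)
            (Nat.add (mg (logu x (zlog0 x)).1) (logu x (zlog0 x)).2.1))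
            (Nat.mul (Nat.add (mg (logu x (zlog0 x)).1) (logu x (zlog0 x)).2.1)
            (Nat.add (mg (logu x (zlog0 x)).1) (logu x (zlog0 x)).2.1))) 120)) 16, true)
  else (0, 0, false) := by
  rw [zlog]

/-- as `IB.zlog_spec`, only one stage -/
theorem zlog_spec {x : Nat} (hx : One (2 ^ 62) x) (h : (zlog x).2.2 = true) :
    One (2 ^ 63) (zlog x).1 ∧
      ∃ l : ℂ, Complex.exp l = bz x 0 ∧ ‖bz (zlog x).1 0 - l‖ ≤ ((zlog x).2.1 : ℝ) / 2 ^ 40 := by
  have hz := sf_zlog x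
  cases hc : (good (zlog0 x) && (logu x (zlog0 x)).2.2 && good (logu x (zlog0 x)).1 &&
      Nat.ble (Nat.add (mg (logu x (zlog0 x)).1) (logu x (zlog0 x)).2.1) 274877906944) with
  | false =>
    rw [hc, cond_false] at hz
    rw [hz] at h
    exact absurd h Bool.false_ne_true
  | true =>
    rw [hc, cond_true] at hz
    rw [hz]
    simp only [Bool.and_eq_true] at hc
    obtain ⟨⟨⟨hgl, hut⟩, hgu⟩, hmb⟩ := hc
    have ol : One (2 ^ 62) (zlog0 x) := by
      unfold zlog0 at hgl ⊢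
      exact sf_head hgl
    exact sf_main hx ol hut hgu hmb

end Pool.Agent.helper31.IF
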