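import Pool.Agent.helper31.IF.Spec
import Pool.Agent.helper31.IB.Inst

/-!
# IF-2: the engine `IB` with the faster exponential and logarithm

The proofs are those of `IB/Fun.lean` with `IF.zexp_spec`, `IF.zlog_spec`.
-/

namespace Pool.Agent.helper31.IF

open Complex
open Pool.Agent.helper31.IA (Z Op Small get RealL InBox)
open Pool.Agent.helper31.IC (Ops Laws)
open Pool.Agent.helper31.IB (A Mem mdl good fd m512 zinv dmag mulX okB Clean One bz lin swap
  mulX_spec clean_tail bz_tail get_small clean_add clean_of_one bz_zero_of_one dmag_spec clean_mono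
  clean_head bz_head zinv_spec mem_mdl)

def expF (x : A) : A :=
  let c := Nat.land x.X m512
  let E := zexp c
  let M := Nat.add (dmag E.1) E.2.1
  let q := Nat.add (Nat.shiftRight (Nat.mul (Nat.mul x.D x.D)
    (Nat.add 2199023255552 x.D)) 82) 1
  bif x.ok && E.2.2 && Nat.ble x.D 1099511627776 && good E.1 then
    mdl (Nat.add E.1 (mulX (Nat.sub x.X c) E.1))
      (Nat.add
        (Nat.add E.2.1 (Nat.shiftRight (Nat.mul E.2.1 x.D) 40))
        (Nat.add (Nat.shiftRight (Nat.mul M (Nat.add x.r q)) 40) 24))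
      true
  else ⟨0, 0, 0, false⟩

def logF (x : A) : A :=
  let c := Nat.land x.X m512
  let l := zlog c
  let u := zinv c
  let U := Nat.add (dmag u.1) 2
  let h := Nat.add (Nat.shiftRight (Nat.mul U x.D) 40) 1
  let im := Nat.add (Nat.sub (fd l.1 1) (fd l.1 3)) (Nat.sub (fd l.1 3) (fd l.1 1))
  let q := Nat.add (Nat.div (Nat.mul (Nat.mul h h)
    (Nat.add 3298534883328 (Nat.mul 4 h))) 7253554917687775048237056) 1
  bif x.ok && l.2.2 && Nat.ble 1099511627776 u.2 && Nat.ble h 549755813888 && good u.1 && good l.1 &&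
     Nat.ble (Nat.add im (Nat.add l.2.1 (Nat.mul 2 h))) 3452466511216 then
    mdl (Nat.add l.1 (mulX (Nat.sub x.X c) u.1))
      (Nat.add
        (Nat.add l.2.1 (Nat.shiftRight (Nat.mul 2 x.D) 40))
        (Nat.add (Nat.shiftRight (Nat.mul U x.r) 40) (Nat.add q 24)))
      true
  else ⟨0, 0, 0, false⟩

private theorem shr_le40 (n : ℕ) : (n : ℝ) / 2 ^ 40 ≤ ((Nat.shiftRight n 40 : ℕ) : ℝ) + 1 := by
  have h1 : Nat.shiftRight n 40 = n / 2 ^ 40 := Nat.shiftRight_eq_div_pow n 40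
  rw [h1, div_le_iff₀ (by positivity)]
  have h2 : n < 2 ^ 40 * (n / 2 ^ 40 + 1) := Nat.lt_mul_div_succ n (by positivity)
  have h3 : (n : ℝ) < 2 ^ 40 * (((n / 2 ^ 40 : ℕ) : ℝ) + 1) := by exact_mod_cast h2
  linarith

private theorem shr_le82 (n : ℕ) : (n : ℝ) / 2 ^ 82 ≤ ((Nat.shiftRight n 82 : ℕ) : ℝ) + 1 := by
  have h1 : Nat.shiftRight n 82 = n / 2 ^ 82 := Nat.shiftRight_eq_div_pow n 82
  rw [h1, div_le_iff₀ (by positivity)]
  have h2 : n < 2 ^ 82 * (n / 2 ^ 82 + 1) := Nat.lt_mul_div_succ n (by positivity)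
  have h3 : (n : ℝ) < 2 ^ 82 * (((n / 2 ^ 82 : ℕ) : ℝ) + 1) := by exact_mod_cast h2
  linarith

private theorem div_le_nat (n d : ℕ) (hd : 0 < d) :
    (n : ℝ) / d ≤ ((Nat.div n d : ℕ) : ℝ) + 1 := by
  have hd' : (0 : ℝ) < d := by exact_mod_cast hd
  rw [div_le_iff₀ hd']
  have h2 : n < d * (n / d + 1) := Nat.lt_mul_div_succ n hd
  have h3 : (n : ℝ) < d * (((n / d : ℕ) : ℝ) + 1) := by exact_mod_cast h2
  have h4 : ((Nat.div n d : ℕ) : ℝ) = ((n / d : ℕ) : ℝ) := rfl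
  rw [h4]
  linarith

private theorem cadd (a b : ℕ) : ((Nat.add a b : ℕ) : ℝ) = (a : ℝ) + b := Nat.cast_add a b

private theorem cmul (a b : ℕ) : ((Nat.mul a b : ℕ) : ℝ) = (a : ℝ) * b := Nat.cast_mul a b

private theorem exp_core' {K : ℝ} (hK : 0 < K) {c lin ρ E1 dm : ℂ} {M G r D e len : ℝ}
    (hE : ‖E1 - Complex.exp c‖ ≤ e / K) (hM : ‖Complex.exp c‖ ≤ M / K)
    (hlin : ‖lin‖ ≤ G / K) (hρ : ‖ρ‖ ≤ r / K) (hδ : ‖lin + ρ‖ ≤ D / K) (hD : D ≤ K)
    (hdm : ‖dm - E1 * lin‖ ≤ len / K) :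
    ‖Complex.exp (c + (lin + ρ)) - (E1 + dm)‖ ≤
      (e + e * G / K + len + M * (r + (D ^ 2 * (2 * K + D) / (4 * K ^ 2))) / K) / K := by
  obtain ⟨δ, hd⟩ : ∃ δ, δ = lin + ρ := ⟨_, rfl⟩
  have hMK : 0 ≤ M / K := (norm_nonneg _).trans hM
  have heK : 0 ≤ e / K := (norm_nonneg _).trans hE
  have hδ1 : ‖δ‖ ≤ D / K := by rw [hd]; exact hδ
  have hDK1 : D / K ≤ 1 := by rw [div_le_one hK]; exact hD
  have hDK0 : 0 ≤ D / K := (norm_nonneg _).trans hδ1
  have hR : ‖Complex.exp δ - 1 - δ‖ ≤ (D / K) ^ 2 / 2 + (D / K) ^ 3 / 4 := by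
    have hb := Complex.exp_bound (x := δ) (hδ1.trans hDK1) (n := 3) (by norm_num)
    have hs : ∑ m ∈ Finset.range 3, δ ^ m / (Nat.factorial m : ℂ) = 1 + δ + δ ^ 2 / 2 := by
      simp [Finset.sum_range_succ, Nat.factorial]
    rw [hs] at hb
    have e1 : Complex.exp δ - 1 - δ = (Complex.exp δ - (1 + δ + δ ^ 2 / 2)) + δ ^ 2 / 2 := by ring
    rw [e1]
    refine (norm_add_le _ _).trans ?_
    have h2 : ‖δ ^ 2 / 2‖ ≤ (D / K) ^ 2 / 2 := by
      rw [norm_div, norm_pow]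
      have : ‖(2 : ℂ)‖ = 2 := by simp
      rw [this]
      gcongr
    have h3 : ‖Complex.exp δ - (1 + δ + δ ^ 2 / 2)‖ ≤ (D / K) ^ 3 / 4 := by
      refine hb.trans ?_
      have h4 : ‖δ‖ ^ 3 ≤ (D / K) ^ 3 := by gcongr
      have h5 : ((Nat.succ 3 : ℕ) : ℝ) * (((Nat.factorial 3 : ℕ) : ℝ) * ((3 : ℕ) : ℝ))⁻¹ ≤ 1 / 4 := by
        norm_num [Nat.factorial]
      calc ‖δ‖ ^ 3 * (((Nat.succ 3 : ℕ) : ℝ) * (((Nat.factorial 3 : ℕ) : ℝ) * ((3 : ℕ) : ℝ))⁻¹)
          ≤ (D / K) ^ 3 * (1 / 4) := by gcongr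
        _ = (D / K) ^ 3 / 4 := by ring
    linarith
  have hid : Complex.exp (c + (lin + ρ)) - (E1 + dm) =
      -(E1 - Complex.exp c) + -(E1 - Complex.exp c) * lin + -(dm - E1 * lin)
        + Complex.exp c * (ρ + (Complex.exp δ - 1 - δ)) := by
    rw [← hd, Complex.exp_add]
    have e1 : ρ = δ - lin := by rw [hd]; ring
    rw [e1]
    ring
  rw [hid]
  have b1 : ‖-(E1 - Complex.exp c)‖ ≤ e / K := by rw [norm_neg]; exact hE
  have b2 : ‖-(E1 - Complex.exp c) * lin‖ ≤ (e / K) * (G / K) := by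
    rw [norm_mul]
    exact mul_le_mul b1 hlin (norm_nonneg _) heK
  have b3 : ‖-(dm - E1 * lin)‖ ≤ len / K := by rw [norm_neg]; exact hdm
  have b4 : ‖Complex.exp c * (ρ + (Complex.exp δ - 1 - δ))‖ ≤
      (M / K) * (r / K + ((D / K) ^ 2 / 2 + (D / K) ^ 3 / 4)) := by
    rw [norm_mul]
    refine mul_le_mul hM ?_ (norm_nonneg _) hMK
    exact (norm_add_le _ _).trans (add_le_add hρ hR)
  calc ‖-(E1 - Complex.exp c) + -(E1 - Complex.exp c) * lin + -(dm - E1 * lin)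
        + Complex.exp c * (ρ + (Complex.exp δ - 1 - δ))‖
      ≤ ‖-(E1 - Complex.exp c)‖ + ‖-(E1 - Complex.exp c) * lin‖ + ‖-(dm - E1 * lin)‖
        + ‖Complex.exp c * (ρ + (Complex.exp δ - 1 - δ))‖ := by
        refine (norm_add_le _ _).trans (add_le_add ?_ le_rfl)
        refine (norm_add_le _ _).trans (add_le_add ?_ le_rfl)
        exact norm_add_le _ _
    _ ≤ e / K + (e / K) * (G / K) + len / K +
        (M / K) * (r / K + ((D / K) ^ 2 / 2 + (D / K) ^ 3 / 4)) := by gcongr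
    _ = (e + e * G / K + len + M * (r + (D ^ 2 * (2 * K + D) / (4 * K ^ 2))) / K) / K := by
        have hK0 : K ≠ 0 := hK.ne'
        field_simp
        ring

private theorem log_core {K : ℝ} (hK : 0 < K) {c lin ρ w dm L l1 : ℂ} {U G r D h e len im : ℝ}
    (hc : c ≠ 0) (hw : ‖w - c⁻¹‖ ≤ 2 / K) (hcU : ‖c⁻¹‖ ≤ U / K)
    (hlin : ‖lin‖ ≤ G / K) (hρ : ‖ρ‖ ≤ r / K) (hδ : ‖lin + ρ‖ ≤ D / K) (hh : U * D / K ≤ h)
    (hh2 : h ≤ K / 2) (hdm : ‖dm - w * lin‖ ≤ len / K) (hL : Complex.exp L = c)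
    (hl : ‖L - l1‖ ≤ e / K) (him : |l1.im| ≤ im / K) (hpi : im + (e + 2 * h) ≤ 3.14 * K) :
    c + (lin + ρ) ∈ slitPlane ∧ ‖Complex.log (c + (lin + ρ)) - (l1 + dm)‖ ≤
      (e + 2 * G / K + len + U * r / K + (h ^ 2 * (3 * K + 4 * h) / (6 * K ^ 2))) / K := by
  obtain ⟨v, hv⟩ : ∃ v, v = (lin + ρ) * c⁻¹ := ⟨_, rfl⟩
  have hcv : lin + ρ = c * v := by rw [hv]; field_simp
  have hUK : 0 ≤ U / K := (norm_nonneg _).trans hcU
  have hDK : 0 ≤ D / K := (norm_nonneg _).trans hδ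
  have hGK : 0 ≤ G / K := (norm_nonneg _).trans hlin
  have hrK : 0 ≤ r / K := (norm_nonneg _).trans hρ
  have hvn : ‖v‖ ≤ h / K := by
    rw [hv, norm_mul]
    calc ‖lin + ρ‖ * ‖c⁻¹‖ ≤ (D / K) * (U / K) := mul_le_mul hδ hcU (norm_nonneg _) hDK
      _ = (U * D / K) / K := by ring
      _ ≤ h / K := by gcongr
  have hhK : h / K ≤ 1 / 2 := by rw [div_le_iff₀ hK]; linarith
  have hh0 : 0 ≤ h / K := (norm_nonneg _).trans hvn
  have hv2 : ‖v‖ ≤ 1 / 2 := hvn.trans hhK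
  have hv1 : ‖v‖ < 1 := lt_of_le_of_lt hv2 (by norm_num)
  have h1v0 : 1 + v ≠ 0 := by
    intro h0
    have : v = -1 := by linear_combination h0
    rw [this] at hv1
    simp at hv1
  have hz : c + (lin + ρ) = c * (1 + v) := by rw [hcv]; ring
  have hexp : Complex.exp (L + Complex.log (1 + v)) = c + (lin + ρ) := by
    rw [Complex.exp_add, hL, Complex.exp_log h1v0, hz]
  have hlog1 : ‖Complex.log (1 + v)‖ ≤ 2 * (h / K) := by
    have := Complex.norm_log_one_add_half_le_self hv2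
    have h0 := norm_nonneg v
    linarith
  have himL : |(L + Complex.log (1 + v)).im| ≤ 3.14 := by
    have e1 : (L + Complex.log (1 + v)).im = l1.im + (L - l1).im + (Complex.log (1 + v)).im := by
      simp
    rw [e1]
    have t1 : |(L - l1).im| ≤ e / K := (Complex.abs_im_le_norm _).trans hl
    have t2 : |(Complex.log (1 + v)).im| ≤ 2 * (h / K) := (Complex.abs_im_le_norm _).trans hlog1
    have t3 : im / K + e / K + 2 * (h / K) ≤ 3.14 := by
      have : im / K + e / K + 2 * (h / K) = (im + (e + 2 * h)) / K := by ring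
      rw [this, div_le_iff₀ hK]
      exact hpi
    calc |l1.im + (L - l1).im + (Complex.log (1 + v)).im|
        ≤ |l1.im| + |(L - l1).im| + |(Complex.log (1 + v)).im| := by
          refine (abs_add_le _ _).trans (add_le_add ?_ le_rfl)
          exact abs_add_le _ _
      _ ≤ 3.14 := by linarith
  have hpi' : (3.14 : ℝ) < Real.pi := Real.pi_gt_d2
  have himb := abs_le.mp himL
  have hlog : Complex.log (c + (lin + ρ)) = L + Complex.log (1 + v) := by
    rw [← hexp]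
    exact Complex.log_exp (by linarith) (by linarith)
  refine ⟨?_, ?_⟩
  · rw [Complex.mem_slitPlane_iff_arg]
    constructor
    · have : Complex.arg (c + (lin + ρ)) = (Complex.log (c + (lin + ρ))).im := by
        rw [Complex.log_im]
      rw [this, hlog]
      intro hh3
      linarith
    · rw [hz]
      exact mul_ne_zero hc h1v0
  · have hR : ‖Complex.log (1 + v) - v‖ ≤ (h / K) ^ 2 / 2 + 2 * (h / K) ^ 3 / 3 := by
      have hb := Complex.norm_log_sub_logTaylor_le 2 hv1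
      have hs : Complex.logTaylor (2 + 1) v = v - v ^ 2 / 2 := by
        simp [Complex.logTaylor, Finset.sum_range_succ]
        ring
      rw [hs] at hb
      have e1 : Complex.log (1 + v) - v = (Complex.log (1 + v) - (v - v ^ 2 / 2)) - v ^ 2 / 2 := by
        ring
      rw [e1]
      refine (norm_sub_le _ _).trans ?_
      have h2 : ‖v ^ 2 / 2‖ ≤ (h / K) ^ 2 / 2 := by
        rw [norm_div, norm_pow]
        have : ‖(2 : ℂ)‖ = 2 := by simp
        rw [this]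
        gcongr
      have h3 : ‖Complex.log (1 + v) - (v - v ^ 2 / 2)‖ ≤ 2 * (h / K) ^ 3 / 3 := by
        refine hb.trans ?_
        have h5 : (1 - ‖v‖)⁻¹ ≤ 2 := by
          rw [inv_le_comm₀ (by linarith) (by norm_num)]
          linarith
        have h50 : 0 ≤ (1 - ‖v‖)⁻¹ := by
          apply inv_nonneg.mpr
          linarith
        have h6 : ‖v‖ ^ (2 + 1) ≤ (h / K) ^ 3 := by gcongr
        calc ‖v‖ ^ (2 + 1) * (1 - ‖v‖)⁻¹ / ((2 : ℕ) + 1)
            ≤ (h / K) ^ 3 * 2 / ((2 : ℕ) + 1) := by gcongr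
          _ = 2 * (h / K) ^ 3 / 3 := by push_cast; ring
      linarith
    have hid : Complex.log (c + (lin + ρ)) - (l1 + dm) =
        (L - l1) + -(w - c⁻¹) * lin + -(dm - w * lin) + c⁻¹ * ρ
          + (Complex.log (1 + v) - v) := by
      rw [hlog]
      have e1 : v = c⁻¹ * lin + c⁻¹ * ρ := by rw [hv]; ring
      linear_combination e1
    rw [hid]
    have b2 : ‖-(w - c⁻¹) * lin‖ ≤ (2 / K) * (G / K) := by
      rw [norm_mul, norm_neg]
      exact mul_le_mul hw hlin (norm_nonneg _) (by positivity)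
    have b3 : ‖-(dm - w * lin)‖ ≤ len / K := by rw [norm_neg]; exact hdm
    have b4 : ‖c⁻¹ * ρ‖ ≤ (U / K) * (r / K) := by
      rw [norm_mul]
      exact mul_le_mul hcU hρ (norm_nonneg _) hUK
    calc ‖(L - l1) + -(w - c⁻¹) * lin + -(dm - w * lin) + c⁻¹ * ρ
          + (Complex.log (1 + v) - v)‖
        ≤ ‖L - l1‖ + ‖-(w - c⁻¹) * lin‖ + ‖-(dm - w * lin)‖ + ‖c⁻¹ * ρ‖
          + ‖Complex.log (1 + v) - v‖ := by
          refine (norm_add_le _ _).trans (add_le_add ?_ le_rfl)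
          refine (norm_add_le _ _).trans (add_le_add ?_ le_rfl)
          refine (norm_add_le _ _).trans (add_le_add ?_ le_rfl)
          exact norm_add_le _ _
      _ ≤ e / K + (2 / K) * (G / K) + len / K + (U / K) * (r / K)
          + ((h / K) ^ 2 / 2 + 2 * (h / K) ^ 3 / 3) := by gcongr
      _ = (e + 2 * G / K + len + U * r / K + (h ^ 2 * (3 * K + 4 * h) / (6 * K ^ 2))) / K := by
          have hK0 : K ≠ 0 := hK.ne'
          field_simp
          ring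

private theorem lin_mulX {ε : List ℂ} (hε : Small ε) {X w : ℕ} (hX : Clean (2 ^ 62) X)
    (hw : One (2 ^ 62) w) :
    ‖(bz (mulX (Nat.sub X (Nat.land X m512)) w) 0 +
        lin (mulX (Nat.sub X (Nat.land X m512)) w) ε) - bz w 0 * lin X ε‖ ≤ 16 / 2 ^ 40 := by
  obtain ⟨T, hT⟩ : ∃ T, T = Nat.sub X (Nat.land X m512) := ⟨_, rfl⟩
  have hTc : Clean (2 ^ 62) T := hT ▸ clean_tail hX
  have hTb : ∀ j, bz T j = if j = 0 then 0 else bz X j := fun j => hT ▸ bz_tail hX j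
  rw [← hT]
  obtain ⟨-, hP⟩ := mulX_spec hTc hw
  obtain ⟨P, hPd⟩ : ∃ P, P = mulX T w := ⟨_, rfl⟩
  rw [← hPd] at hP ⊢
  have h0 : ‖bz P 0‖ ≤ 2 / 2 ^ 40 := by
    have := hP 0
    rw [hTb 0, if_pos rfl, zero_mul, sub_zero] at this
    exact this
  have h1 : lin P ε - bz w 0 * lin X ε =
      ∑ j ∈ Finset.range 7, (bz P (j + 1) - bz T (j + 1) * bz w 0) * get ε j := by
    unfold lin
    rw [Finset.mul_sum, ← Finset.sum_sub_distrib]
    refine Finset.sum_congr rfl fun j _ => ?_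
    rw [hTb (j + 1), if_neg (Nat.succ_ne_zero j)]
    ring
  have h2 : ‖lin P ε - bz w 0 * lin X ε‖ ≤ 14 / 2 ^ 40 := by
    rw [h1]
    refine (norm_sum_le _ _).trans ?_
    have h3 : ∀ j ∈ Finset.range 7,
        ‖(bz P (j + 1) - bz T (j + 1) * bz w 0) * get ε j‖ ≤ (2 / 2 ^ 40 : ℝ) := by
      intro j _
      rw [norm_mul]
      have a := hP (j + 1)
      have b := get_small hε j
      calc ‖bz P (j + 1) - bz T (j + 1) * bz w 0‖ * ‖get ε j‖
          ≤ (2 / 2 ^ 40) * 1 := mul_le_mul a b (norm_nonneg _) (by positivity)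
        _ = 2 / 2 ^ 40 := by ring
    refine (Finset.sum_le_sum h3).trans ?_
    simp only [Finset.sum_const, Finset.card_range, nsmul_eq_mul]
    norm_num
  have e1 : bz P 0 + lin P ε - bz w 0 * lin X ε = bz P 0 + (lin P ε - bz w 0 * lin X ε) := by ring
  rw [e1]
  refine (norm_add_le _ _).trans ?_
  calc ‖bz P 0‖ + ‖lin P ε - bz w 0 * lin X ε‖ ≤ 2 / 2 ^ 40 + 14 / 2 ^ 40 := add_le_add h0 h2
    _ = 16 / 2 ^ 40 := by norm_num

private theorem value_add {ε : List ℂ} {m n a P : ℕ} (ha : One m a) (hP : Clean n P)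
    (h : m + n ≤ 2 ^ 128) :
    bz (Nat.add a P) 0 + lin (Nat.add a P) ε = bz a 0 + (bz P 0 + lin P ε) := by
  obtain ⟨-, hb⟩ := clean_add (clean_of_one ha) hP h
  have h1 : lin (Nat.add a P) ε = lin P ε := by
    unfold lin
    refine Finset.sum_congr rfl fun j _ => ?_
    rw [hb (j + 1), bz_zero_of_one ha (Nat.succ_le_succ (Nat.zero_le j)), zero_add]
  rw [h1, hb 0]
  ring

private theorem norm_le_dmag {x : ℕ} (h : One (2 ^ 62) x) : ‖bz x 0‖ ≤ (dmag x : ℝ) / 2 ^ 40 := by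
  have h1 := dmag_spec (clean_mono (clean_of_one h) (by norm_num : 2 ^ 62 ≤ 2 ^ 90))
  rw [le_div_iff₀ (by positivity)]
  refine le_trans ?_ h1
  have h2 : ‖bz x 0‖ ≤ ∑ j ∈ Finset.range 8, ‖bz x j‖ :=
    Finset.single_le_sum (f := fun j => ‖bz x j‖) (fun j _ => norm_nonneg _)
      (Finset.mem_range.mpr (by norm_num))
  exact mul_le_mul_of_nonneg_right h2 (by positivity)

private theorem bif_ok {b : Bool} {X r : ℕ}
    (h : (bif b then mdl X r true else ⟨0, 0, 0, false⟩ : A).ok = true) :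
    b = true := by
  cases b with
  | true => rfl
  | false => exact h

theorem mem_expF {ε : List ℂ} (hε : Small ε) {x : A} {u : ℂ} (hx : Mem ε x u) :
    Mem ε (expF x) (Complex.exp u) := by
  intro hok
  have hb := bif_ok hok
  have hcond := hb
  obtain ⟨c, hc0⟩ : ∃ c : ℕ, c = Nat.land x.X m512 := ⟨_, rfl⟩
  obtain ⟨E, hE0⟩ : ∃ E : ℕ, E = (zexp c).1 := ⟨_, rfl⟩
  obtain ⟨e, he0⟩ : ∃ e : ℕ, e = (zexp c).2.1 := ⟨_, rfl⟩
  obtain ⟨M, hM0⟩ : ∃ M : ℕ, M = Nat.add (dmag E) e := ⟨_, rfl⟩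
  obtain ⟨q, hq⟩ : ∃ q : ℕ, q = Nat.add (Nat.shiftRight (Nat.mul (Nat.mul x.D x.D)
    (Nat.add 2199023255552 x.D)) 82) 1 := ⟨_, rfl⟩
  rw [← hc0, ← hE0] at hcond
  simp only [Bool.and_eq_true, Nat.ble_eq] at hcond
  obtain ⟨⟨⟨hxok, heok⟩, hD1⟩, hgE⟩ := hcond
  have hM := hx hxok
  obtain ⟨ρ, hz, hρ, hlin', hδ⟩ := hM.split hε
  have hK : (0 : ℝ) < 2 ^ 40 := by positivity
  have hlin : ‖lin x.X ε‖ ≤ (x.D : ℝ) / 2 ^ 40 := by
    rw [le_div_iff₀ hK]
    have : (0 : ℝ) ≤ x.r := Nat.cast_nonneg _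
    linarith
  have hc1 : One (2 ^ 62) c := by rw [hc0]; exact clean_head hM.clean
  have hcb : bz c 0 = bz x.X 0 := by rw [hc0]; exact bz_head x.X
  obtain ⟨hE1, hE⟩ := zexp_spec hc1 heok
  rw [← hE0, ← he0, hcb] at hE
  rw [← hE0] at hE1
  have hm := norm_le_dmag hE1
  have hMr : (M : ℝ) = dmag E + e := by rw [hM0, cadd]
  have hqr : (q : ℝ) = ((Nat.shiftRight (Nat.mul (Nat.mul x.D x.D)
    (Nat.add 2199023255552 x.D)) 82 : ℕ) : ℝ) + 1 := by rw [hq, cadd]; norm_num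
  have hMb : ‖Complex.exp (bz x.X 0)‖ ≤ (M : ℝ) / 2 ^ 40 := by
    have e1 : Complex.exp (bz x.X 0) = bz E 0 - (bz E 0 - Complex.exp (bz x.X 0)) := by ring
    rw [e1]
    refine (norm_sub_le _ _).trans ?_
    rw [hMr, add_div]
    exact add_le_add hm hE
  have hDK : (x.D : ℝ) ≤ 2 ^ 40 := by
    have : (x.D : ℝ) ≤ (1099511627776 : ℕ) := by exact_mod_cast hD1
    refine this.trans ?_
    norm_num
  have hdm := lin_mulX hε hM.clean hE1
  rw [← hc0] at hdm
  have key := exp_core' hK hE hMb hlin hρ hδ hDK hdm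
  rw [← hz] at key
  have hdef : (expF x) = mdl (Nat.add E (mulX (Nat.sub x.X c) E))
      (Nat.add
        (Nat.add e (Nat.shiftRight (Nat.mul e x.D) 40))
        (Nat.add (Nat.shiftRight (Nat.mul M (Nat.add x.r q)) 40) 24))
      true := by
    rw [hM0, hq, he0, hE0, hc0]
    unfold expF
    simp only [hb, cond_true]
  have hgoal : Mem ε (expF x) (Complex.exp u) := by
    rw [hdef]
    refine mem_mdl fun _ _ => ?_
    have hPc := (mulX_spec (clean_tail hM.clean) hE1).1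
    rw [← hc0] at hPc
    rw [value_add hE1 hPc (by norm_num)]
    refine key.trans ?_
    have s1 := shr_le40 (Nat.mul e x.D)
    have s2 := shr_le40 (Nat.mul M (Nat.add x.r q))
    have s3 := shr_le82 (Nat.mul (Nat.mul x.D x.D) (Nat.add 2199023255552 x.D))
    rw [← hqr] at s3
    simp only [cmul, cadd] at s1 s2 s3
    have s3' : (x.D : ℝ) ^ 2 * (2 * 2 ^ 40 + x.D) / (4 * (2 ^ 40) ^ 2) ≤ q := by
      have e0 : (x.D : ℝ) ^ 2 * (2 * 2 ^ 40 + x.D) / (4 * (2 ^ 40) ^ 2) =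
          (x.D : ℝ) * x.D * (((2199023255552 : ℕ) : ℝ) + x.D) / 2 ^ 82 := by
        push_cast
        ring
      rw [e0]; exact s3
    have s4 : (M : ℝ) * (x.r + (x.D : ℝ) ^ 2 * (2 * 2 ^ 40 + x.D) / (4 * (2 ^ 40) ^ 2)) / 2 ^ 40 ≤
        ((Nat.shiftRight (Nat.mul M (Nat.add x.r q)) 40 : ℕ) : ℝ) + 1 := by
      refine le_trans ?_ s2
      gcongr
    refine div_le_div_of_nonneg_right ?_ hK.le
    simp only [cadd]
    push_cast
    linarith
  exact hgoal hok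

theorem mem_logF {ε : List ℂ} (hε : Small ε) {x : A} {u : ℂ} (hx : Mem ε x u)
    (h : (logF x).ok = true) : u ∈ slitPlane ∧ Mem ε (logF x) (Complex.log u) := by
  have hb := bif_ok h
  have hcond := hb
  obtain ⟨c, hc0⟩ : ∃ c : ℕ, c = Nat.land x.X m512 := ⟨_, rfl⟩
  obtain ⟨l, hl0⟩ : ∃ l : ℕ, l = (zlog c).1 := ⟨_, rfl⟩
  obtain ⟨e, he0⟩ : ∃ e : ℕ, e = (zlog c).2.1 := ⟨_, rfl⟩
  obtain ⟨w, hw0⟩ : ∃ w : ℕ, w = (zinv c).1 := ⟨_, rfl⟩
  obtain ⟨U, hU⟩ : ∃ U : ℕ, U = Nat.add (dmag w) 2 := ⟨_, rfl⟩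
  obtain ⟨k, hk0⟩ : ∃ k : ℕ, k = Nat.add (Nat.shiftRight (Nat.mul U x.D) 40) 1 := ⟨_, rfl⟩
  obtain ⟨im, him0⟩ : ∃ im : ℕ, im = Nat.add (Nat.sub (fd l 1) (fd l 3))
    (Nat.sub (fd l 3) (fd l 1)) := ⟨_, rfl⟩
  obtain ⟨q, hq⟩ : ∃ q : ℕ, q = Nat.add (Nat.div (Nat.mul (Nat.mul k k)
    (Nat.add 3298534883328 (Nat.mul 4 k))) 7253554917687775048237056) 1 := ⟨_, rfl⟩
  rw [← hc0, ← hw0, ← hU, ← hk0, ← hl0, ← he0, ← him0] at hcond
  simp only [Bool.and_eq_true, Nat.ble_eq] at hcond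
  obtain ⟨⟨⟨⟨⟨⟨hxok, hlok⟩, hn⟩, hk⟩, hgw⟩, hgl⟩, hpi⟩ := hcond
  have hM := hx hxok
  obtain ⟨ρ, hz, hρ, hlin', hδ⟩ := hM.split hε
  have hK : (0 : ℝ) < 2 ^ 40 := by positivity
  have hlin : ‖lin x.X ε‖ ≤ (x.D : ℝ) / 2 ^ 40 := by
    rw [le_div_iff₀ hK]
    have : (0 : ℝ) ≤ x.r := Nat.cast_nonneg _
    linarith
  have hc1 : One (2 ^ 62) c := by rw [hc0]; exact clean_head hM.clean
  have hcb : bz c 0 = bz x.X 0 := by rw [hc0]; exact bz_head x.X
  obtain ⟨hw1, hcne, hwn, -⟩ := zinv_spec hc1 hn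
  rw [← hw0] at hw1 hwn
  rw [hcb] at hcne hwn
  have hm := norm_le_dmag hw1
  obtain ⟨hl1, L, hL, hl⟩ := zlog_spec hc1 hlok
  rw [← hl0] at hl1 hl
  rw [← he0, norm_sub_rev] at hl
  rw [hcb] at hL
  have hUr : (U : ℝ) = dmag w + 2 := by rw [hU, cadd]; norm_num
  have hkr : (k : ℝ) = ((Nat.shiftRight (Nat.mul U x.D) 40 : ℕ) : ℝ) + 1 := by
    rw [hk0, cadd]; norm_num
  have hcU : ‖(bz x.X 0)⁻¹‖ ≤ (U : ℝ) / 2 ^ 40 := by
    have e1 : (bz x.X 0)⁻¹ = bz w 0 - (bz w 0 - (bz x.X 0)⁻¹) := by ring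
    rw [e1]
    refine (norm_sub_le _ _).trans ?_
    rw [hUr, add_div]
    exact add_le_add hm hwn
  have hUD : (U : ℝ) * x.D / 2 ^ 40 ≤ k := by
    have := shr_le40 (Nat.mul U x.D)
    rw [cmul] at this
    rw [hkr]
    exact this
  have hk2 : (k : ℝ) ≤ 2 ^ 40 / 2 := by
    have : (k : ℝ) ≤ (549755813888 : ℕ) := by exact_mod_cast hk
    refine this.trans ?_
    norm_num
  have hdm := lin_mulX hε hM.clean hw1
  rw [← hc0] at hdm
  have himv : (bz l 0).im = ((fd l 1 : ℝ) - fd l 3) / 2 ^ 40 := by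
    unfold bz
    simp only [Nat.mul_zero, Nat.zero_add, add_im, mul_im, ofReal_im, ofReal_re, I_im, I_re]
    ring
  have him : |(bz l 0).im| ≤ (im : ℝ) / 2 ^ 40 := by
    rw [himv, abs_div, abs_of_pos hK, him0, cadd]
    gcongr
    rcases le_total (fd l 1) (fd l 3) with hcd | hcd
    · have e1 : ((Nat.sub (fd l 3) (fd l 1) : ℕ) : ℝ) = fd l 3 - fd l 1 :=
        Nat.cast_sub hcd
      have e2 : (0 : ℝ) ≤ ((Nat.sub (fd l 1) (fd l 3) : ℕ) : ℝ) := Nat.cast_nonneg _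
      have e3 : (fd l 1 : ℝ) ≤ fd l 3 := by exact_mod_cast hcd
      rw [e1, abs_of_nonpos (by linarith)]
      linarith
    · have e1 : ((Nat.sub (fd l 1) (fd l 3) : ℕ) : ℝ) = fd l 1 - fd l 3 :=
        Nat.cast_sub hcd
      have e2 : (0 : ℝ) ≤ ((Nat.sub (fd l 3) (fd l 1) : ℕ) : ℝ) := Nat.cast_nonneg _
      have e3 : (fd l 3 : ℝ) ≤ fd l 1 := by exact_mod_cast hcd
      rw [e1, abs_of_nonneg (by linarith)]
      linarith
  have hpi' : (im : ℝ) + ((e : ℝ) + 2 * k) ≤ 3.14 * 2 ^ 40 := by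
    have : ((Nat.add im (Nat.add e (Nat.mul 2 k)) : ℕ) : ℝ) ≤ (3452466511216 : ℕ) := by
      exact_mod_cast hpi
    simp only [cadd, cmul] at this
    push_cast at this
    refine this.trans ?_
    norm_num
  have key := log_core hK hcne hwn hcU hlin hρ hδ hUD hk2 hdm hL hl him hpi'
  rw [← hz] at key
  refine ⟨key.1, ?_⟩
  have hdef : (logF x) = mdl (Nat.add l (mulX (Nat.sub x.X c) w))
      (Nat.add
        (Nat.add e (Nat.shiftRight (Nat.mul 2 x.D) 40))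
        (Nat.add (Nat.shiftRight (Nat.mul U x.r) 40) (Nat.add q 24)))
      true := by
    rw [hq, hk0, hU, he0, hl0, hw0, hc0]
    unfold logF
    simp only [hb, cond_true]
  rw [hdef]
  refine mem_mdl fun _ _ => ?_
  have hPc := (mulX_spec (clean_tail hM.clean) hw1).1
  rw [← hc0] at hPc
  rw [value_add hl1 hPc (by norm_num)]
  refine key.2.trans ?_
  have s1 := shr_le40 (Nat.mul 2 x.D)
  have s2 := shr_le40 (Nat.mul U x.r)
  have s3 := div_le_nat (Nat.mul (Nat.mul k k) (Nat.add 3298534883328 (Nat.mul 4 k)))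
    7253554917687775048237056 (by norm_num)
  have hqr : (q : ℝ) = ((Nat.div (Nat.mul (Nat.mul k k)
    (Nat.add 3298534883328 (Nat.mul 4 k))) 7253554917687775048237056 : ℕ) : ℝ) + 1 := by
    rw [hq, cadd]; norm_num
  rw [← hqr] at s3
  simp only [cmul, cadd] at s1 s2 s3
  have s3' : (k : ℝ) ^ 2 * (3 * 2 ^ 40 + 4 * k) / (6 * (2 ^ 40) ^ 2) ≤ q := by
    have e0 : (k : ℝ) ^ 2 * (3 * 2 ^ 40 + 4 * k) / (6 * (2 ^ 40) ^ 2) =
        (k : ℝ) * k * (((3298534883328 : ℕ) : ℝ) + ((4 : ℕ) : ℝ) * k) /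
          ((7253554917687775048237056 : ℕ) : ℝ) := by
      push_cast
      ring
    rw [e0]; exact s3
  push_cast at s1
  refine div_le_div_of_nonneg_right ?_ hK.le
  simp only [cadd]
  push_cast
  linarith

def opsF : Ops where
  α := A
  cst := A.const
  add := A.add
  sub := A.sub
  mul := A.mul
  scale := fun z x => A.scale z x
  neg := A.neg
  inv := A.inv
  exp := expF
  log := logF
  ok := fun x => x.ok
  isPos := fun n x => A.isPos n x
  isLt := A.isLt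
  bad := ⟨0, 0, 0, false⟩
  models := fun b n => IB.models b 0 n

/-- as `IB.lawsB_mem` -/
theorem lawsF_mem : ∃ L : Laws opsF, L.Mem = Mem ∧ L.okBox = okB := by
  refine ⟨{
    Mem := Mem
    cst := fun {ε} _ z _ => Mem.const ε z
    add := fun {ε} _ {x y u v} hx hy _ => Mem.add hx hy
    sub := fun {ε} _ {x y u v} hx hy _ => Mem.sub hx hy
    mul := fun {ε} hε {x y u v} hx hy _ => Mem.mul hε hx hy
    scale := fun {ε} hε z {x u} hx _ => Mem.scale hε z hx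
    neg := fun {ε} _ {x u} hx _ => Mem.neg hx
    inv := fun {ε} hε {x u} hx h => Mem.inv hε hx h
    exp := fun {ε} hε {x u} hx _ => mem_expF hε hx
    log := fun {ε} hε {x u} hx h => mem_logF hε hx h
    isPos := fun {nr ε} hε hr {x u} hx h => IB.isPos_sound hε hr hx h
    isLt := fun {ε} hε {x u B} hx h => IB.isLt_sound hε hx h
    bad := fun ε z hok => by simp [opsF] at hok
    okBox := okB
    models := ?_ }, rfl, rfl⟩
  intro box nd u x hb hu hx h1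
  exact IB.models_sound box nd u x hb hu hx h1

theorem cov_F {nr nd : Nat} {ops : List Op} {chk : List A → Bool}
    (hchk : ∀ m, chk m = true → IC.runG opsF nr ops m = true) (t : IA.T)
    (box : List (Nat × Nat)) (hb : box.length = nr)
    (h : IC.verifyG opsF okB nd chk t box = true) : IA.Cov nd ops box := by
  obtain ⟨L, -, hok⟩ := lawsF_mem
  refine IC.cov_of_verifyG L hchk t box hb ?_
  rw [hok]
  exact h

theorem covD_F {nr nd : Nat} {progs : List (List Op)} {chks : List (List A → Bool)}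
    (hchk : List.Forall₂ (fun (ops : List Op) (chk : List A → Bool) =>
      ∀ m, chk m = true → IC.runG opsF nr ops m = true) progs chks) (t : IC.TD)
    (box : List (Nat × Nat)) (hb : box.length = nr)
    (h : IC.verifyD opsF okB nd chks t box = true) : IC.CovD nd progs box := by
  obtain ⟨L, -, hok⟩ := lawsF_mem
  refine IC.covD_of_verifyD L hchk t box hb ?_
  rw [hok]
  exact h

end Pool.Agent.helper31.IF
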